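import Mathlib
set_option maxHeartbeats 4000000
set_option linter.unusedSectionVars false
set_option linter.unusedSimpArgs false
set_option linter.unusedVariables false

/-!
# Antisymmetric complex potentials Floquet isospectral to zero

For every `q > 3` with `4 ∤ q` there is a nonzero antisymmetric `V` in `ℂ^q` whose Floquet matrices
`L_V(z)` have the same characteristic polynomials as those of the zero potential.

Outline.  Odd `q = 2 m + 1 ≥ 5`: let `I` be the ideal of `ℂ[u_1, …, u_m]` generated by the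
coefficients of `det (L_V - x) - det (L_0 - x)`.  If `0` were the only common zero then (with `𝔪` the
ideal of the variables) `𝔪 ^ N ⊆ I`.  The Fourier forms `L_1, …, L_m` of the potential generate `𝔪`,
and second order perturbation theory at the double eigenvalues of the free matrix gives
`L_n ^ 2 ∈ I + 𝔪 ^ 3`, whence `𝔪 ^ (m + 1) ⊆ I`.  On the other hand the leading forms show that
the monomial `∏ u_k ^ (2 k - 1)`, of degree `m ^ 2 ≥ m + 1`, is not in `I`; a contradiction.
Even `q = 2 d`, `d ≥ 5` odd: repeat a solution for `d` twice.  `q = 6`: explicit elimination.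
-/

namespace Pool.Agent.Results.MP_17669a_mp.AntisymmetricFloquet
open Matrix

/-! ### GBase -/

/-- The Floquet matrix with corner entries `w` in position `(1, q)` and `z` in position `(q, 1)`. -/
def floq {R : Type*} [CommRing R] (q : ℕ) (z w : R) (v : Fin q → R) :
    Matrix (Fin q) (Fin q) R :=
  Matrix.of fun i j =>
    if i = j then v i
    else if (i : ℕ) + 1 = j ∨ (j : ℕ) + 1 = i then 1
    else if (i : ℕ) = 0 ∧ (j : ℕ) + 1 = q then w
    else if (j : ℕ) = 0 ∧ (i : ℕ) + 1 = q then z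
    else 0

/-- `det (L_V - x)`. -/
def dd {R : Type*} [CommRing R] (q : ℕ) (z w : R) (v : Fin q → R) (x : R) : R :=
  (floq q z w v - x • (1 : Matrix (Fin q) (Fin q) R)).det

theorem dd_map {R S : Type*} [CommRing R] [CommRing S] (f : R →+* S) (q : ℕ) (z w : R)
    (v : Fin q → R) (x : R) : f (dd q z w v x) = dd q (f z) (f w) (fun j => f (v j)) (f x) := by
  unfold dd
  rw [RingHom.map_det]
  congr 1
  ext i j
  simp only [RingHom.mapMatrix_apply, Matrix.map_apply, Matrix.sub_apply, Matrix.smul_apply,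
    floq, Matrix.of_apply, Matrix.one_apply, smul_eq_mul]
  split_ifs <;> simp


/-! z-independence -/
section Zind

variable {R : Type*} [CommRing R]

/-- The matrix `L_V - x`. -/
def mm (n : ℕ) (z w : R) (v : Fin (n + 1) → R) (x : R) : Matrix (Fin (n + 1)) (Fin (n + 1)) R :=
  floq (n + 1) z w v - x • (1 : Matrix (Fin (n + 1)) (Fin (n + 1)) R)

theorem mm_eq (n : ℕ) (hn : 2 ≤ n) (z w : R) (v : Fin (n + 1) → R) (x : R) :
    mm n z w v x = ((mm n 0 0 v x).updateRow 0
      ((mm n 0 0 v x) 0 + w • (Pi.single (Fin.last n) 1 : Fin (n + 1) → R))).updateRow (Fin.last n)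
      ((mm n 0 0 v x) (Fin.last n) + z • (Pi.single 0 1 : Fin (n + 1) → R)) := by
  ext i j
  rw [Matrix.updateRow_apply]
  have hl0 : (Fin.last n) ≠ 0 := by
    intro h; have := congrArg Fin.val h; simp at this; omega
  by_cases hi : i = Fin.last n
  · subst hi
    rw [if_pos rfl]
    simp only [mm, floq, Matrix.sub_apply, Matrix.of_apply, Matrix.smul_apply, Pi.add_apply,
      Pi.smul_apply, Pi.single_apply, smul_eq_mul, Fin.val_last, Matrix.one_apply]
    by_cases hj : j = 0
    · subst hj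
      rw [if_neg hl0, if_neg hl0]
      have h1 : ¬ (n + 1 = ((0 : Fin (n + 1)) : ℕ) ∨ ((0 : Fin (n + 1)) : ℕ) + 1 = n) := by
        simp; omega
      rw [if_neg h1, if_neg h1]
      have h2 : ¬ (n = 0 ∧ ((0 : Fin (n + 1)) : ℕ) + 1 = n + 1) := by
        simp; omega
      rw [if_neg h2, if_neg h2]
      simp [hl0]
    · have hj' : (j : ℕ) ≠ 0 := fun h => hj (Fin.ext (by simpa using h))
      rw [if_neg (c := j = 0) hj]
      by_cases h : Fin.last n = j
      · simp [h]
      · rw [if_neg h, if_neg h, if_neg h]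
        split_ifs <;> simp_all
  · rw [if_neg hi, Matrix.updateRow_apply]
    have hi' : (i : ℕ) ≠ n := fun h => hi (Fin.ext (by simpa using h))
    by_cases hi0 : i = 0
    · subst hi0
      rw [if_pos rfl]
      simp only [mm, floq, Matrix.sub_apply, Matrix.of_apply, Matrix.smul_apply, Pi.add_apply,
        Pi.smul_apply, Pi.single_apply, smul_eq_mul, Matrix.one_apply]
      by_cases hj : j = Fin.last n
      · subst hj
        rw [if_neg hl0.symm, if_neg hl0.symm]
        have h1 : ¬ (((0 : Fin (n + 1)) : ℕ) + 1 = (Fin.last n : ℕ) ∨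
            (Fin.last n : ℕ) + 1 = ((0 : Fin (n + 1)) : ℕ)) := by
          simp; omega
        rw [if_neg h1, if_neg h1]
        simp [hl0.symm]
      · have hj' : (j : ℕ) ≠ n := fun h => hj (Fin.ext (by simpa using h))
        rw [if_neg (c := j = Fin.last n) hj]
        by_cases h : (0 : Fin (n + 1)) = j
        · simp [h]
        · rw [if_neg h, if_neg h, if_neg h]
          have : ¬ ((j : ℕ) + 1 = n + 1) := by omega
          split_ifs <;> simp_all
    · rw [if_neg hi0]
      have hi0' : (i : ℕ) ≠ 0 := fun h => hi0 (Fin.ext (by simpa using h))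
      have a1 : ¬ ((i : ℕ) + 1 = n + 1) := by omega
      simp only [mm, floq, Matrix.sub_apply, Matrix.of_apply]
      simp only [hi0', a1, false_and, and_false, if_false]

theorem det_rowzero (n : ℕ) (hn : 2 ≤ n) (v : Fin (n + 1) → R) (x : R) :
    ((mm n 0 0 v x).updateRow 0 (Pi.single (Fin.last n) 1)).det =
      ((Equiv.Perm.sign (finRotate (n + 1)) : ℤ) : R) := by
  set B := (mm n 0 0 v x).updateRow 0 (Pi.single (Fin.last n) 1) with hB
  have h1 : (B.submatrix (finRotate (n + 1)) id).det = 1 := by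
    rw [Matrix.det_of_isUpperTriangular]
    · apply Finset.prod_eq_one
      intro i _
      rw [Matrix.submatrix_apply, id_eq]
      by_cases hi : i = Fin.last n
      · subst hi
        rw [finRotate_last, hB, Matrix.updateRow_self, Pi.single_eq_same]
      · have hil : (i : ℕ) < n := by
          have := i.isLt
          have : (i : ℕ) ≠ n := fun h => hi (Fin.ext (by simpa using h))
          omega
        have hr : ((finRotate (n + 1) i : Fin (n + 1)) : ℕ) = (i : ℕ) + 1 :=
          coe_finRotate_of_ne_last hi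
        have hr0 : finRotate (n + 1) i ≠ 0 := by
          intro h; rw [h] at hr; simp at hr
        have hri : finRotate (n + 1) i ≠ i := by
          intro h; rw [h] at hr; omega
        rw [hB, Matrix.updateRow_ne hr0]
        simp only [mm, floq, Matrix.sub_apply, Matrix.of_apply, Matrix.smul_apply,
          Matrix.one_apply_ne hri, if_neg hri, hr]
        simp
    · intro i j hij
      simp only [id_eq] at hij
      rw [Matrix.submatrix_apply, id_eq]
      have hij' : (j : ℕ) < i := hij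
      by_cases hi : i = Fin.last n
      · subst hi
        rw [finRotate_last, hB, Matrix.updateRow_self, Pi.single_apply, if_neg (ne_of_lt hij)]
      · have hr : ((finRotate (n + 1) i : Fin (n + 1)) : ℕ) = (i : ℕ) + 1 :=
          coe_finRotate_of_ne_last hi
        have hr0 : finRotate (n + 1) i ≠ 0 := by
          intro h; rw [h] at hr; simp at hr
        have hri : finRotate (n + 1) i ≠ j := by
          intro h; rw [h] at hr; omega
        rw [hB, Matrix.updateRow_ne hr0]
        simp only [mm, floq, Matrix.sub_apply, Matrix.of_apply, Matrix.smul_apply,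
          Matrix.one_apply_ne hri, if_neg hri, hr]
        have c1 : ¬ ((i : ℕ) + 1 + 1 = (j : ℕ) ∨ (j : ℕ) + 1 = (i : ℕ) + 1) := by omega
        rw [if_neg c1]
        simp
  rw [Matrix.det_permute] at h1
  have h2 : (((Equiv.Perm.sign (finRotate (n + 1)) : ℤ) : R)) *
      (((Equiv.Perm.sign (finRotate (n + 1)) : ℤ) : R)) = 1 := by
    rcases Int.units_eq_one_or (Equiv.Perm.sign (finRotate (n + 1))) with h | h <;> rw [h] <;> simp
  calc B.det = (((Equiv.Perm.sign (finRotate (n + 1)) : ℤ) : R)) *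
      ((((Equiv.Perm.sign (finRotate (n + 1)) : ℤ) : R)) * B.det) := by
        rw [← mul_assoc, h2, one_mul]
    _ = _ := by rw [h1, mul_one]


theorem rev_mm (n : ℕ) (z w : R) (v : Fin (n + 1) → R) (x : R) (i j : Fin (n + 1)) :
    mm n z w v x (Fin.rev i) (Fin.rev j) = mm n w z (fun k => v (Fin.rev k)) x i j := by
  simp only [mm, floq, Matrix.sub_apply, Matrix.of_apply, Matrix.smul_apply, Matrix.one_apply,
    Fin.rev_inj, Fin.val_rev]
  have hi := i.isLt
  have hj := j.isLt
  have c1 : (n + 1 - ((i : ℕ) + 1) + 1 = n + 1 - ((j : ℕ) + 1) ∨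
      n + 1 - ((j : ℕ) + 1) + 1 = n + 1 - ((i : ℕ) + 1)) ↔
      ((i : ℕ) + 1 = j ∨ (j : ℕ) + 1 = i) := by omega
  have c2 : (n + 1 - ((i : ℕ) + 1) = 0 ∧ n + 1 - ((j : ℕ) + 1) + 1 = n + 1) ↔
      ((j : ℕ) = 0 ∧ (i : ℕ) + 1 = n + 1) := by omega
  have c3 : (n + 1 - ((j : ℕ) + 1) = 0 ∧ n + 1 - ((i : ℕ) + 1) + 1 = n + 1) ↔
      ((i : ℕ) = 0 ∧ (j : ℕ) + 1 = n + 1) := by omega
  simp only [c1, c2, c3]
  split_ifs <;> first | rfl | omega

theorem det_rev (n : ℕ) (z w : R) (v : Fin (n + 1) → R) (x : R) :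
    (mm n z w v x).det = (mm n w z (fun k => v (Fin.rev k)) x).det := by
  rw [← Matrix.det_submatrix_equiv_self Fin.revPerm (mm n z w v x)]
  congr 1
  ext i j
  rw [Matrix.submatrix_apply]
  exact rev_mm n z w v x i j

theorem det_rowlast (n : ℕ) (hn : 2 ≤ n) (v : Fin (n + 1) → R) (x : R) :
    ((mm n 0 0 v x).updateRow (Fin.last n) (Pi.single 0 1)).det =
      ((Equiv.Perm.sign (finRotate (n + 1)) : ℤ) : R) := by
  rw [← det_rowzero n hn (fun k => v (Fin.rev k)) x,
    ← Matrix.det_submatrix_equiv_self Fin.revPerm ((mm n 0 0 v x).updateRow _ _)]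
  congr 1
  ext i j
  rw [Matrix.submatrix_apply, Matrix.updateRow_apply, Matrix.updateRow_apply]
  simp only [Fin.revPerm_apply]
  have e1 : (Fin.rev i = Fin.last n) ↔ i = 0 := by
    rw [← Fin.rev_zero, Fin.rev_inj]
  have e2 : (Fin.rev j = 0) ↔ j = Fin.last n := by
    rw [← Fin.rev_last, Fin.rev_inj]
  by_cases hi : i = 0
  · rw [if_pos (e1.mpr hi), if_pos hi, Pi.single_apply, Pi.single_apply]
    simp only [e2]
  · rw [if_neg (fun h => hi (e1.mp h)), if_neg hi]
    exact rev_mm n 0 0 v x i j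

theorem det_mm (n : ℕ) (hn : 2 ≤ n) (z w : R) (v : Fin (n + 1) → R) (x : R) :
    (mm n z w v x).det = (mm n 0 0 v x).det +
      (w + z) * ((Equiv.Perm.sign (finRotate (n + 1)) : ℤ) : R) + z * w *
      (((mm n 0 0 v x).updateRow (Fin.last n) (Pi.single 0 1)).updateRow 0
        (Pi.single (Fin.last n) 1)).det := by
  have hl0 : (Fin.last n) ≠ 0 := by
    intro h; have := congrArg Fin.val h; simp at this; omega
  rw [mm_eq n hn]
  set A := mm n 0 0 v x with hA
  set e : Fin (n + 1) → R := Pi.single (Fin.last n) 1 with he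
  set f : Fin (n + 1) → R := Pi.single 0 1 with hf
  rw [Matrix.det_updateRow_add, Matrix.det_updateRow_smul]
  have h1 : ((A.updateRow 0 (A 0 + w • e)).updateRow (Fin.last n) (A (Fin.last n))) =
      A.updateRow 0 (A 0 + w • e) := by
    have : (A.updateRow 0 (A 0 + w • e)) (Fin.last n) = A (Fin.last n) :=
      Matrix.updateRow_ne hl0
    conv_lhs => rw [← this]
    rw [Matrix.updateRow_eq_self]
  have h2 : (A.updateRow 0 (A 0 + w • e)).det = A.det + w * (A.updateRow 0 e).det := by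
    rw [Matrix.det_updateRow_add, Matrix.updateRow_eq_self, Matrix.det_updateRow_smul]
  have h3 : ((A.updateRow 0 (A 0 + w • e)).updateRow (Fin.last n) f).det =
      (A.updateRow (Fin.last n) f).det +
        w * ((A.updateRow (Fin.last n) f).updateRow 0 e).det := by
    rw [Matrix.updateRow_comm _ hl0.symm, Matrix.det_updateRow_add, Matrix.det_updateRow_smul]
    congr 2
    have : (A.updateRow (Fin.last n) f) 0 = A 0 := Matrix.updateRow_ne hl0.symm
    rw [← this, Matrix.updateRow_eq_self]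
  rw [h1, h2, h3, hA, he, hf, det_rowzero n hn, det_rowlast n hn]
  ring

theorem zind (n : ℕ) (hn : 2 ≤ n) (z w z' w' : R) (h : z * w = 1) (h' : z' * w' = 1)
    (v v' : Fin (n + 1) → R) (x x' : R) :
    dd (n + 1) z w v x - dd (n + 1) z w v' x' = dd (n + 1) z' w' v x - dd (n + 1) z' w' v' x' := by
  have e : ∀ (z w : R) (v : Fin (n + 1) → R) (x : R), dd (n + 1) z w v x = (mm n z w v x).det :=
    fun _ _ _ _ => rfl
  rw [e, e, e, e, det_mm n hn z w v x, det_mm n hn z w v' x', det_mm n hn z' w' v x,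
    det_mm n hn z' w' v' x', h, h']
  ring

/-- Parity for odd `q`. -/
theorem dd_neg (m : ℕ) (z w : R) (v : Fin (2 * m + 1) → R)
    (hv : ∀ j, v (Fin.rev j) = - v j) (x : R) :
    dd (2 * m + 1) z w v x = - dd (2 * m + 1) (-w) (-z) v (-x) := by
  have e : ∀ (z w : R) (v : Fin (2 * m + 1) → R) (x : R),
    dd (2 * m + 1) z w v x = (mm (2 * m) z w v x).det := fun _ _ _ _ => rfl
  rw [e, e, det_rev (2 * m) (-w) (-z) v (-x)]
  have hv' : (fun k => v (Fin.rev k)) = fun k => - v k := funext hv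
  rw [hv']
  set S : Matrix (Fin (2 * m + 1)) (Fin (2 * m + 1)) R :=
    Matrix.diagonal (fun i => (-1 : R) ^ (i : ℕ)) with hS
  have hSM : S * mm (2 * m) z w v x * S = - mm (2 * m) (-z) (-w) (fun k => - v k) (-x) := by
    ext i j
    rw [hS, Matrix.mul_diagonal, Matrix.diagonal_mul]
    simp only [mm, floq, Matrix.sub_apply, Matrix.of_apply, Matrix.smul_apply, Matrix.one_apply,
      Matrix.neg_apply, smul_eq_mul]
    have hi := i.isLt
    have hj := j.isLt
    by_cases hij : i = j
    · subst hij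
      simp only [if_true]
      have : (-1 : R) ^ (i : ℕ) * (-1) ^ (i : ℕ) = 1 := by
        rw [← pow_add]; exact Even.neg_one_pow ⟨_, rfl⟩
      linear_combination (v i - x) * this
    · simp only [if_neg hij, mul_zero, sub_zero]
      by_cases h1 : (i : ℕ) + 1 = j ∨ (j : ℕ) + 1 = i
      · simp only [if_pos h1, mul_one]
        rw [← pow_add]
        apply Odd.neg_one_pow
        rcases h1 with h1 | h1
        · exact ⟨(i : ℕ), by omega⟩
        · exact ⟨(j : ℕ), by omega⟩
      · simp only [if_neg h1]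
        by_cases h2 : (i : ℕ) = 0 ∧ (j : ℕ) + 1 = 2 * m + 1
        · simp only [if_pos h2]
          have : (-1 : R) ^ (i : ℕ) * (-1) ^ (j : ℕ) = 1 := by
            rw [← pow_add]; apply Even.neg_one_pow; exact ⟨m, by omega⟩
          linear_combination w * this
        · simp only [if_neg h2]
          by_cases h3 : (j : ℕ) = 0 ∧ (i : ℕ) + 1 = 2 * m + 1
          · simp only [if_pos h3]
            have : (-1 : R) ^ (i : ℕ) * (-1) ^ (j : ℕ) = 1 := by
              rw [← pow_add]; apply Even.neg_one_pow; exact ⟨m, by omega⟩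
            linear_combination z * this
          · simp only [if_neg h3]; ring
  have hSS : S.det * S.det = 1 := by
    rw [hS, Matrix.det_diagonal, ← Finset.prod_mul_distrib]
    apply Finset.prod_eq_one
    intro i _
    rw [← pow_add]; exact Even.neg_one_pow ⟨_, rfl⟩
  have h1 := congrArg Matrix.det hSM
  rw [Matrix.det_mul, Matrix.det_mul, Matrix.det_neg, Fintype.card_fin] at h1
  have h2 : (-1 : R) ^ (2 * m + 1) = -1 := Odd.neg_one_pow ⟨m, rfl⟩
  rw [h2] at h1
  linear_combination h1 - (mm (2 * m) z w v x).det * hSS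

/-- `ζ` is odd in `x`. -/
theorem zeta_odd (m : ℕ) (hm : 1 ≤ m) (v : Fin (2 * m + 1) → R)
    (hv : ∀ j, v (Fin.rev j) = - v j) (x : R) :
    dd (2 * m + 1) 1 1 v x - dd (2 * m + 1) 1 1 0 x =
      - (dd (2 * m + 1) 1 1 v (-x) - dd (2 * m + 1) 1 1 0 (-x)) := by
  rw [dd_neg m 1 1 v hv x, dd_neg m 1 1 0 (fun j => by simp) x]
  have := zind (2 * m) (by omega) (-1 : R) (-1) 1 1 (by ring) (by ring) v 0 (-x) (-x)
  linear_combination (-1 : R) * this

end Zind
/-! total degree -/
section Deg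
open MvPolynomial
variable {m : ℕ}

theorem totalDegree_dd (q : ℕ) (hq : 0 < q) (v : Fin q → MvPolynomial (Fin m) ℂ)
    (hv : ∀ j, (v j).totalDegree ≤ 1) (x : MvPolynomial (Fin m) ℂ) (hx : x.totalDegree ≤ 1) :
    (dd q 1 1 v x - ∏ i, (v i - x)).totalDegree < q := by
  classical
  unfold dd
  rw [Matrix.det_apply', ← Finset.add_sum_erase Finset.univ _ (Finset.mem_univ (1 : Equiv.Perm (Fin q)))]
  have h1 : ((Equiv.Perm.sign (1 : Equiv.Perm (Fin q)) : ℤ) : MvPolynomial (Fin m) ℂ) *
      ∏ i, (floq q 1 1 v - x • (1 : Matrix (Fin q) (Fin q) (MvPolynomial (Fin m) ℂ)))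
        ((1 : Equiv.Perm (Fin q)) i) i = ∏ i, (v i - x) := by
    simp [floq]
  rw [h1, add_sub_cancel_left]
  refine lt_of_le_of_lt (totalDegree_finsetSum _ _) ?_
  rw [Finset.sup_lt_iff (by exact_mod_cast hq)]
  intro σ hσ
  have hσ1 : σ ≠ 1 := Finset.ne_of_mem_erase hσ
  have hent : ∀ i j, ((floq q 1 1 v - x • (1 : Matrix (Fin q) (Fin q) (MvPolynomial (Fin m) ℂ)))
      i j).totalDegree ≤ if i = j then 1 else 0 := by
    intro i j
    by_cases hij : i = j
    · subst hij
      simp only [floq, Matrix.sub_apply, Matrix.smul_apply, Matrix.of_apply, if_true,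
        Matrix.one_apply_eq, smul_eq_mul, mul_one]
      exact (totalDegree_sub _ _).trans (max_le (hv i) hx)
    · simp only [floq, Matrix.sub_apply, Matrix.smul_apply, Matrix.of_apply, if_neg hij,
        Matrix.one_apply_ne hij, smul_eq_mul, mul_zero, sub_zero]
      split_ifs <;> simp
  obtain ⟨i0, hi0⟩ : ∃ i0, σ i0 ≠ i0 := by
    by_contra h
    push Not at h
    exact hσ1 (Equiv.ext h)
  have h2 : (((Equiv.Perm.sign σ : ℤ) : MvPolynomial (Fin m) ℂ)).totalDegree = 0 := by
    rcases Int.units_eq_one_or (Equiv.Perm.sign σ) with h | h <;> rw [h] <;> simp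
  refine lt_of_le_of_lt (totalDegree_mul _ _) ?_
  rw [h2, zero_add]
  refine lt_of_le_of_lt (totalDegree_finsetProd _ _) ?_
  calc ∑ i, ((floq q 1 1 v - x • (1 : Matrix (Fin q) (Fin q) (MvPolynomial (Fin m) ℂ)))
        (σ i) i).totalDegree ≤ ∑ i, (if σ i = i then 1 else 0) :=
        Finset.sum_le_sum (fun i _ => hent (σ i) i)
    _ < ∑ i : Fin q, 1 := by
        apply Finset.sum_lt_sum
        · intro i _
          split_ifs <;> norm_num
        · exact ⟨i0, Finset.mem_univ _, by rw [if_neg hi0]; norm_num⟩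
    _ = q := by simp

end Deg
section Tower
open MvPolynomial

variable {K : Type*} [Field K]

theorem single_lt {m : ℕ} (i j : Fin m) (h : i < j) (n : ℕ) (hn : n ≠ 0) :
    MonomialOrder.degLex.toSyn (Finsupp.single j n) < MonomialOrder.degLex.toSyn (Finsupp.single i n) := by
  have h1 : MonomialOrder.degLex.toSyn (Finsupp.single j 1) <
      MonomialOrder.degLex.toSyn (Finsupp.single i 1) := MonomialOrder.degLex_single_lt_iff.mpr h
  have e : ∀ k : Fin m, (Finsupp.single k n : Fin m →₀ ℕ) = n • Finsupp.single k 1 := by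
    intro k
    rw [Finsupp.smul_single, smul_eq_mul, mul_one]
  rw [e i, e j, map_nsmul, map_nsmul]
  exact nsmul_right_strictMono hn h1

theorem tower {m : ℕ} (k : ℕ) (hk : k ≤ m) :
    ∀ (Z : Polynomial (MvPolynomial (Fin m) K)), Z.degree < k →
    (∀ j : Fin m, (j : ℕ) < k → MonomialOrder.degLex.Monic (Z.eval (X j ^ 2)) ∧
      MonomialOrder.degLex.degree (Z.eval (X j ^ 2)) = Finsupp.single j (2 * k)) →
    ∃ g : Fin m → MvPolynomial (Fin m) K, (∀ j : Fin m, (j : ℕ) < k →
      MonomialOrder.degLex.Monic (g j) ∧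
      MonomialOrder.degLex.degree (g j) = Finsupp.single j (2 * ((j : ℕ) + 1))) ∧
      ∀ i, Z.coeff i ∈ Ideal.span (g '' {j | (j : ℕ) < k}) := by
  classical
  induction k with
  | zero =>
    intro Z hZ _
    have hZ0 : Z = 0 := by
      rw [Polynomial.degree_lt_iff_coeff_zero] at hZ
      ext1 n
      rw [hZ n (Nat.zero_le n), Polynomial.coeff_zero]
    refine ⟨fun _ => 0, fun j hj => absurd hj (Nat.not_lt_zero _), fun i => ?_⟩
    rw [hZ0, Polynomial.coeff_zero]
    exact Ideal.zero_mem _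
  | succ k ih =>
    intro Z hZ hlead
    set j0 : Fin m := ⟨k, hk⟩ with hj0
    set x0 : MvPolynomial (Fin m) K := X j0 ^ 2 with hx0
    have hm : (Polynomial.X - Polynomial.C x0).Monic := Polynomial.monic_X_sub_C x0
    set Z' := Z /ₘ (Polynomial.X - Polynomial.C x0) with hZ'
    have hdiv : Z = (Polynomial.X - Polynomial.C x0) * Z' + Polynomial.C (Z.eval x0) := by
      have := Polynomial.modByMonic_add_div Z (Polynomial.X - Polynomial.C x0)
      rw [Polynomial.modByMonic_X_sub_C_eq_C_eval] at this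
      rw [hZ']
      conv_lhs => rw [← this]
      rw [add_comm]
    have hZ'deg : Z'.degree < k := by
      rw [Polynomial.degree_lt_iff_coeff_zero] at hZ ⊢
      -- coefficients of Z' beyond k vanish
      have hnd : Z.natDegree ≤ k := by
        rw [Polynomial.natDegree_le_iff_coeff_eq_zero]
        intro N hN
        exact hZ N (by omega)
      have hnd' := Polynomial.natDegree_divByMonic Z hm
      rw [Polynomial.natDegree_X_sub_C] at hnd'
      intro n hn
      by_cases hk0 : k = 0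
      · have hdz : Z.degree < (Polynomial.X - Polynomial.C x0).degree := by
          have h1 : Z.degree < ((1 : ℕ) : WithBot ℕ) := by
            rw [Polynomial.degree_lt_iff_coeff_zero]
            intro N hN
            exact hZ N (by omega)
          rw [Polynomial.degree_X_sub_C]
          exact_mod_cast h1
        have : Z' = 0 := (Polynomial.divByMonic_eq_zero_iff hm).mpr hdz
        rw [this, Polynomial.coeff_zero]
      · apply Polynomial.coeff_eq_zero_of_natDegree_lt
        rw [← hZ'] at hnd'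
        omega
    have hl0 := hlead j0 (Nat.lt_succ_self k)
    have hlead' : ∀ j : Fin m, (j : ℕ) < k → MonomialOrder.degLex.Monic (Z'.eval (X j ^ 2)) ∧
        MonomialOrder.degLex.degree (Z'.eval (X j ^ 2)) = Finsupp.single j (2 * k) := by
      intro j hj
      have hlj := hlead j (by omega)
      have hjj0 : j < j0 := by
        rw [Fin.lt_def]; exact hj
      have hev : (X j ^ 2 - x0) * Z'.eval (X j ^ 2) = Z.eval (X j ^ 2) - Z.eval x0 := by
        conv_rhs => rw [hdiv]
        simp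
      have hlt : MonomialOrder.degLex.toSyn (MonomialOrder.degLex.degree (Z.eval x0)) <
          MonomialOrder.degLex.toSyn (MonomialOrder.degLex.degree (Z.eval (X j ^ 2))) := by
        rw [hl0.2, hlj.2]
        exact single_lt j j0 hjj0 _ (by omega)
      have hd1 := MonomialOrder.degree_sub_of_lt hlt
      have hc1 := MonomialOrder.leadingCoeff_sub_of_lt hlt
      have hX2 : ∀ i : Fin m, MonomialOrder.degLex.degree ((X i : MvPolynomial (Fin m) K) ^ 2) =
          Finsupp.single i 2 := by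
        intro i
        rw [MonomialOrder.degree_pow, MonomialOrder.degree_X, Finsupp.smul_single, smul_eq_mul,
          mul_one]
      have hlt2 : MonomialOrder.degLex.toSyn (MonomialOrder.degLex.degree x0) <
          MonomialOrder.degLex.toSyn (MonomialOrder.degLex.degree
            ((X j : MvPolynomial (Fin m) K) ^ 2)) := by
        rw [hx0, hX2, hX2]
        exact single_lt j j0 hjj0 2 (by norm_num)
      have hd2 := MonomialOrder.degree_sub_of_lt hlt2
      have hc2 := MonomialOrder.leadingCoeff_sub_of_lt hlt2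
      have hc2' : MonomialOrder.degLex.leadingCoeff ((X j : MvPolynomial (Fin m) K) ^ 2 - x0) = 1 := by
        rw [hc2]
        exact (MonomialOrder.Monic.pow MonomialOrder.leadingCoeff_X).leadingCoeff_eq_one
      have hc1' : MonomialOrder.degLex.leadingCoeff (Z.eval (X j ^ 2) - Z.eval x0) = 1 := by
        rw [hc1]
        exact hlj.1.leadingCoeff_eq_one
      have hne : (X j ^ 2 - x0) * Z'.eval (X j ^ 2) ≠ 0 := by
        rw [hev]
        intro h
        rw [h, MonomialOrder.leadingCoeff_zero] at hc1'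
        exact zero_ne_one hc1'
      constructor
      · show MonomialOrder.degLex.leadingCoeff _ = 1
        have := hc1'
        rw [← hev, MonomialOrder.leadingCoeff_mul, hc2', one_mul] at this
        exact this
      · have := hd1
        rw [← hev, MonomialOrder.degree_mul' hne, hd2, hX2, hlj.2] at this
        have e : (Finsupp.single j (2 * (k + 1)) : Fin m →₀ ℕ) =
            Finsupp.single j 2 + Finsupp.single j (2 * k) := by
          rw [← Finsupp.single_add]; congr 1; ring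
        rw [e] at this
        exact add_left_cancel this
    obtain ⟨g, hg1, hg2⟩ := ih (by omega) Z' hZ'deg hlead'
    refine ⟨Function.update g j0 (Z.eval x0), ?_, ?_⟩
    · intro j hj
      by_cases h : j = j0
      · subst h
        rw [Function.update_self]
        exact ⟨hl0.1, hl0.2⟩
      · rw [Function.update_of_ne h]
        refine hg1 j ?_
        have : (j : ℕ) ≠ k := fun h' => h (Fin.ext h')
        omega
    · set I := Ideal.span ((Function.update g j0 (Z.eval x0)) '' {j | (j : ℕ) < k + 1}) with hI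
      have hsub : Ideal.span (g '' {j | (j : ℕ) < k}) ≤ I := by
        apply Ideal.span_mono
        rintro _ ⟨j, hj, rfl⟩
        have hj' : (j : ℕ) < k := hj
        have hne : j ≠ j0 := by
          intro h
          rw [h] at hj'
          exact absurd hj' (lt_irrefl k)
        exact ⟨j, (show (j : ℕ) < k + 1 by omega), by rw [Function.update_of_ne hne]⟩
      have h0 : Z.eval x0 ∈ I := by
        apply Ideal.subset_span
        exact ⟨j0, (show ((j0 : Fin m) : ℕ) < k + 1 by exact Nat.lt_succ_self k),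
          by rw [Function.update_self]⟩
      have hmem : Z ∈ Ideal.map (Polynomial.C : MvPolynomial (Fin m) K →+* _) I := by
        rw [hdiv]
        refine Ideal.add_mem _ (Ideal.mul_mem_left _ _ ?_) (Ideal.mem_map_of_mem _ h0)
        rw [Ideal.mem_map_C_iff]
        exact fun n => hsub (hg2 n)
      rw [Ideal.mem_map_C_iff] at hmem
      exact hmem

end Tower
section Basis
open MvPolynomial

variable {σ : Type*} [Fintype σ] [DecidableEq σ] (mo : MonomialOrder σ) {K : Type*} [Field K]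

/-- The product attached to an exponent. -/
noncomputable def bas (g : σ → MvPolynomial σ K) (a : σ → ℕ) (μ : σ →₀ ℕ) : MvPolynomial σ K :=
  ∏ k, (g k ^ (μ k / a k) * X k ^ (μ k % a k))

theorem bas_monic (g : σ → MvPolynomial σ K) (a : σ → ℕ) (hg : ∀ k, mo.Monic (g k))
    (μ : σ →₀ ℕ) : mo.Monic (bas g a μ) := by
  apply MonomialOrder.Monic.prod
  intro k _
  exact (hg k).pow.mul (MonomialOrder.Monic.pow (MonomialOrder.leadingCoeff_X))

theorem bas_degree (g : σ → MvPolynomial σ K) (a : σ → ℕ) (hg : ∀ k, mo.Monic (g k))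
    (hd : ∀ k, mo.degree (g k) = Finsupp.single k (a k)) (μ : σ →₀ ℕ) :
    mo.degree (bas g a μ) = μ := by
  have hX : ∀ k : σ, (X k : MvPolynomial σ K) ≠ 0 := fun k => X_ne_zero k
  have hg0 : ∀ k, g k ≠ 0 := fun k => (hg k).ne_zero
  rw [bas, MonomialOrder.degree_prod (fun k _ => mul_ne_zero (pow_ne_zero _ (hg0 k))
    (pow_ne_zero _ (hX k)))]
  have : ∀ k : σ, mo.degree (g k ^ (μ k / a k) * X k ^ (μ k % a k)) = Finsupp.single k (μ k) := by
    intro k
    rw [MonomialOrder.degree_mul (pow_ne_zero _ (hg0 k)) (pow_ne_zero _ (hX k)),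
      MonomialOrder.degree_pow, MonomialOrder.degree_pow, hd, MonomialOrder.degree_X,
      Finsupp.smul_single, Finsupp.smul_single, ← Finsupp.single_add]
    congr 1
    simp only [smul_eq_mul, mul_one]
    rw [mul_comm]
    exact Nat.div_add_mod (μ k) (a k)
  rw [Finset.sum_congr rfl (fun k _ => this k)]
  exact Finsupp.univ_sum_single μ

theorem bas_mul (g : σ → MvPolynomial σ K) (a : σ → ℕ) (ha : ∀ k, 0 < a k) (μ : σ →₀ ℕ) (k : σ) :
    bas g a μ * g k = bas g a (μ + Finsupp.single k (a k)) := by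
  rw [bas, bas, ← Finset.mul_prod_erase Finset.univ _ (Finset.mem_univ k),
    ← Finset.mul_prod_erase Finset.univ (fun k_1 => g k_1 ^ ((μ + Finsupp.single k (a k)) k_1 / a k_1)
      * X k_1 ^ ((μ + Finsupp.single k (a k)) k_1 % a k_1)) (Finset.mem_univ k)]
  have h1 : ∏ x ∈ Finset.univ.erase k, (g x ^ ((μ + Finsupp.single k (a k)) x / a x)
      * X x ^ ((μ + Finsupp.single k (a k)) x % a x)) =
      ∏ x ∈ Finset.univ.erase k, (g x ^ (μ x / a x) * X x ^ (μ x % a x)) := by
    refine Finset.prod_congr rfl fun x hx => ?_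
    have : x ≠ k := Finset.ne_of_mem_erase hx
    rw [Finsupp.add_apply, Finsupp.single_eq_of_ne this, add_zero]
  rw [h1, Finsupp.add_apply, Finsupp.single_eq_same, Nat.add_div_right _ (ha k),
    Nat.add_mod_right, pow_succ]
  ring

theorem not_mem_span (g : σ → MvPolynomial σ K) (a : σ → ℕ) (ha : ∀ k, 0 < a k)
    (hg : ∀ k, mo.Monic (g k)) (hd : ∀ k, mo.degree (g k) = Finsupp.single k (a k))
    (r : σ →₀ ℕ) (hr : ∀ k, r k < a k) :
    monomial r (1 : K) ∉ Ideal.span (Set.range g) := by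
  classical
  set Ψ : MvPolynomial σ K →ₗ[K] MvPolynomial σ K :=
    (MvPolynomial.basisMonomials σ K).constr K (bas g a) with hΨ
  have hΨm : ∀ μ, Ψ (monomial μ 1) = bas g a μ := by
    intro μ
    have := (MvPolynomial.basisMonomials σ K).constr_basis K (bas g a) μ
    simpa using this
  have hΨs : ∀ f : MvPolynomial σ K, Ψ f = ∑ μ ∈ f.support, f.coeff μ • bas g a μ := by
    intro f
    conv_lhs => rw [← support_sum_monomial_coeff f]
    rw [map_sum]
    refine Finset.sum_congr rfl fun μ _ => ?_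
    rw [← hΨm, ← map_smul, smul_monomial, smul_eq_mul, mul_one]
  -- surjectivity
  have hsurj : ∀ (s : mo.syn) (p : MvPolynomial σ K), (∀ β ∈ p.support, mo.toSyn β ≤ s) →
      ∃ f, Ψ f = p := by
    intro s
    induction s using WellFoundedLT.induction with
    | ind s ih =>
      intro p hp
      by_cases hp0 : p = 0
      · exact ⟨0, by rw [map_zero, hp0]⟩
      set D := mo.degree p with hD
      set p' := p - (mo.leadingCoeff p) • bas g a D with hp'
      have hbd : mo.degree (bas g a D) = D := bas_degree mo g a hg hd D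
      have hbc : (bas g a D).coeff D = 1 := by
        have := (bas_monic mo g a hg D).coeff_degree
        rwa [hbd] at this
      by_cases hp'0 : p' = 0
      · refine ⟨(mo.leadingCoeff p) • monomial D 1, ?_⟩
        rw [map_smul, hΨm]
        exact (sub_eq_zero.mp hp'0).symm
      have hlt : mo.toSyn (mo.degree p') < mo.toSyn D := by
        have h1 : mo.toSyn (mo.degree p') ≤ mo.toSyn D := by
          refine le_trans MonomialOrder.degree_sub_le ?_
          refine sup_le le_rfl ?_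
          refine le_trans MonomialOrder.degree_smul_le ?_
          rw [hbd]
        refine lt_of_le_of_ne h1 ?_
        intro h
        have h2 : mo.degree p' = D := mo.toSyn.injective h
        have h3 : p'.coeff D = 0 := by
          rw [hp', coeff_sub, coeff_smul, hbc, smul_eq_mul, mul_one]
          exact sub_self _
        have h4 : p'.coeff (mo.degree p') ≠ 0 := by
          rw [MonomialOrder.coeff_degree_ne_zero_iff]; exact hp'0
        rw [h2] at h4
        exact h4 h3
      have hDs : mo.toSyn D ≤ s := hp D (mo.degree_mem_support hp0)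
      obtain ⟨f, hf⟩ := ih (mo.toSyn (mo.degree p')) (lt_of_lt_of_le hlt hDs) p'
        (fun β hβ => mo.le_degree hβ)
      refine ⟨f + (mo.leadingCoeff p) • monomial D 1, ?_⟩
      rw [map_add, hf, map_smul, hΨm, hp']
      abel
  have hinj : ∀ f, Ψ f = 0 → f = 0 := by
    intro f hf
    by_contra hf0
    set D := mo.degree f with hD
    have h1 : (Ψ f).coeff D = f.coeff D := by
      rw [hΨs, coeff_sum]
      rw [Finset.sum_eq_single D]
      · have hbd : mo.degree (bas g a D) = D := bas_degree mo g a hg hd D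
        have := (bas_monic mo g a hg D).coeff_degree
        rw [hbd] at this
        rw [coeff_smul, this, smul_eq_mul, mul_one]
      · intro μ hμ hne
        rw [coeff_smul]
        have h2 : mo.toSyn μ ≤ mo.toSyn D := mo.le_degree hμ
        have h3 : mo.toSyn μ < mo.toSyn D :=
          lt_of_le_of_ne h2 (fun h => hne (mo.toSyn.injective h))
        have hz0 : (bas g a μ).coeff D = 0 := by
          apply MonomialOrder.coeff_eq_zero_of_lt (m := mo)
          rw [bas_degree mo g a hg hd μ]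
          exact h3
        rw [hz0, smul_zero]
      · intro h
        exact absurd (mo.degree_mem_support hf0) h
    rw [hf, coeff_zero] at h1
    exact (MonomialOrder.coeff_degree_ne_zero_iff.mpr hf0) h1.symm
  have hmul : ∀ (k : σ) (f : MvPolynomial σ K), Ψ f * g k = Ψ (f * X k ^ a k) := by
    intro k f
    conv_lhs => rw [← support_sum_monomial_coeff f]
    conv_rhs => rw [← support_sum_monomial_coeff f]
    rw [map_sum, Finset.sum_mul, Finset.sum_mul, map_sum]
    refine Finset.sum_congr rfl fun μ _ => ?_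
    have e1 : (monomial μ (f.coeff μ) : MvPolynomial σ K) = f.coeff μ • monomial μ 1 := by
      rw [smul_monomial, smul_eq_mul, mul_one]
    rw [e1, map_smul, hΨm, smul_mul_assoc, smul_mul_assoc, map_smul, bas_mul g a ha]
    rw [X_pow_eq_monomial, monomial_mul, one_mul, hΨm]
  intro hmem
  rw [Ideal.mem_span_range_iff_exists_fun] at hmem
  obtain ⟨c, hc⟩ := hmem
  have hch : ∀ k, ∃ f, Ψ f = c k := fun k =>
    hsurj (mo.toSyn (mo.degree (c k))) (c k) (fun β hβ => mo.le_degree hβ)
  choose f hf using hch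
  set F := ∑ k, f k * X k ^ a k with hF
  have hrb : bas g a r = monomial r 1 := by
    rw [bas]
    rw [Finset.prod_congr rfl (fun k _ => by
      rw [Nat.div_eq_of_lt (hr k), Nat.mod_eq_of_lt (hr k), pow_zero, one_mul])]
    rw [monomial_eq]
    simp [Finsupp.prod_fintype]
  have hΨF : Ψ (F - monomial r 1) = 0 := by
    rw [map_sub, hΨm, hrb, hF, map_sum, sub_eq_zero, ← hc]
    refine Finset.sum_congr rfl fun k _ => ?_
    rw [← hmul, hf]
  have hFr := hinj _ hΨF
  have hcoef := congrArg (coeff r) hFr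
  rw [coeff_sub, coeff_zero, coeff_monomial, if_pos rfl, hF, coeff_sum] at hcoef
  have hz : ∑ k, coeff r (f k * X k ^ a k) = 0 := by
    refine Finset.sum_eq_zero fun k _ => ?_
    rw [X_pow_eq_monomial, coeff_mul_monomial', if_neg]
    intro hle
    have := hle k
    rw [Finsupp.single_eq_same] at this
    exact absurd (hr k) (not_lt.mpr this)
  rw [hz] at hcoef
  norm_num at hcoef

end Basis



/-! ### GUniv -/

/-! The universal antisymmetric potential -/
section Univ

open MvPolynomial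

/-- The antisymmetric potential `(u_1, …, u_m, 0, -u_m, …, -u_1)`. -/
def av {R : Type*} [CommRing R] (m : ℕ) (u : Fin m → R) : Fin (2 * m + 1) → R := fun j =>
  if h : (j : ℕ) < m then u ⟨j, h⟩
  else if h' : 2 * m - (j : ℕ) < m then - u ⟨2 * m - (j : ℕ), h'⟩
  else 0

theorem av_rev {R : Type*} [CommRing R] (m : ℕ) (u : Fin m → R) (j : Fin (2 * m + 1)) :
    av m u (Fin.rev j) = - av m u j := by
  have hj := j.isLt
  have hr : ((Fin.rev j : Fin (2 * m + 1)) : ℕ) = 2 * m - j := by
    rw [Fin.val_rev]; omega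
  unfold av
  by_cases h1 : (j : ℕ) < m
  · have c1 : ¬ (((Fin.rev j : Fin (2 * m + 1)) : ℕ) < m) := by omega
    have c2 : 2 * m - ((Fin.rev j : Fin (2 * m + 1)) : ℕ) < m := by omega
    rw [dif_neg c1, dif_pos c2, dif_pos h1]
    congr 2
    apply Fin.ext
    simp only [hr]
    omega
  · by_cases h2 : 2 * m - (j : ℕ) < m
    · have c1 : (((Fin.rev j : Fin (2 * m + 1)) : ℕ) < m) := by omega
      rw [dif_pos c1, dif_neg h1, dif_pos h2, neg_neg]
      congr 1
      apply Fin.ext
      simp only [hr]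
    · have c1 : ¬ (((Fin.rev j : Fin (2 * m + 1)) : ℕ) < m) := by omega
      have c2 : ¬ (2 * m - ((Fin.rev j : Fin (2 * m + 1)) : ℕ) < m) := by omega
      rw [dif_neg c1, dif_neg c2, dif_neg h1, dif_neg h2, neg_zero]

theorem av_map {R S : Type*} [CommRing R] [CommRing S] (f : R →+* S) (m : ℕ) (u : Fin m → R)
    (j : Fin (2 * m + 1)) : f (av m u j) = av m (fun i => f (u i)) j := by
  unfold av
  split_ifs <;> simp

/-- The polynomial `ζ` of the universal antisymmetric potential. -/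
noncomputable def zp (m : ℕ) : Polynomial (MvPolynomial (Fin m) ℂ) :=
  dd (2 * m + 1) 1 1 (fun j => Polynomial.C (av m (fun i => (X i : MvPolynomial (Fin m) ℂ)) j))
    Polynomial.X - dd (2 * m + 1) 1 1 0 Polynomial.X

theorem zp_hom {S : Type*} [CommRing S] (m : ℕ)
    (φ : Polynomial (MvPolynomial (Fin m) ℂ) →+* S) :
    φ (zp m) = dd (2 * m + 1) 1 1 (av m (fun i => φ (Polynomial.C (X i)))) (φ Polynomial.X) -
      dd (2 * m + 1) 1 1 0 (φ Polynomial.X) := by
  unfold zp
  rw [map_sub, dd_map, dd_map, map_one]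
  congr 1
  · congr 1
    funext j
    exact av_map (φ.comp Polynomial.C) m _ j
  · congr 1
    funext j
    simp

theorem zp_eval (m : ℕ) (x : MvPolynomial (Fin m) ℂ) :
    (zp m).eval x = dd (2 * m + 1) 1 1 (av m (fun i => (X i : MvPolynomial (Fin m) ℂ))) x -
      dd (2 * m + 1) 1 1 0 x := by
  have := zp_hom m (Polynomial.evalRingHom x)
  simpa using this

theorem comp_neg_coeff {R : Type*} [CommRing R] (p : Polynomial R) (i : ℕ) (hi : Even i) :
    (p.comp (-Polynomial.X)).coeff i = p.coeff i := by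
  have e1 : (-Polynomial.X : Polynomial R) = Polynomial.C (-1) * Polynomial.X := by simp
  rw [e1, Polynomial.comp_C_mul_X_coeff, hi.neg_one_pow, mul_one]

theorem zp_even (m : ℕ) (hm : 1 ≤ m) (i : ℕ) (hi : Even i) : (zp m).coeff i = 0 := by
  have h1 := zp_hom m (Polynomial.compRingHom (-Polynomial.X : Polynomial (MvPolynomial (Fin m) ℂ)))
  have h2 := zp_hom m (RingHom.id (Polynomial (MvPolynomial (Fin m) ℂ)))
  simp only [Polynomial.coe_compRingHom_apply, Polynomial.C_comp, Polynomial.X_comp] at h1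
  simp only [RingHom.id_apply] at h2
  have h3 := zeta_odd m hm (av m (fun i => (Polynomial.C (X i : MvPolynomial (Fin m) ℂ))))
    (av_rev m _) (Polynomial.X)
  rw [← h1, ← h2] at h3
  have h4 := congrArg (fun p => Polynomial.coeff p i) h3
  simp only [Polynomial.coeff_neg] at h4
  have h5 := comp_neg_coeff (zp m) i hi
  rw [h5] at h4
  have h6 : (2 : MvPolynomial (Fin m) ℂ) * (zp m).coeff i = 0 := by linear_combination h4
  rcases mul_eq_zero.mp h6 with h | h
  · exfalso
    have : (C (2 : ℂ) : MvPolynomial (Fin m) ℂ) = 0 := by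
      rw [map_ofNat]; exact h
    rw [C_eq_zero] at this
    norm_num at this
  · exact h

theorem dd_charpoly {R : Type*} [CommRing R] (q : ℕ) (z w : R) (v : Fin q → R) :
    dd q (Polynomial.C z) (Polynomial.C w) (fun j => Polynomial.C (v j)) Polynomial.X =
      (-1) ^ q * (floq q z w v).charpoly := by
  unfold dd Matrix.charpoly
  have : floq q (Polynomial.C z) (Polynomial.C w) (fun j => Polynomial.C (v j)) -
      (Polynomial.X : Polynomial R) • (1 : Matrix (Fin q) (Fin q) (Polynomial R)) =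
      - (floq q z w v).charmatrix := by
    ext i j : 1
    rw [Matrix.neg_apply, Matrix.charmatrix_apply]
    simp only [floq, Matrix.sub_apply, Matrix.of_apply, Matrix.smul_apply, Matrix.one_apply,
      smul_eq_mul, Matrix.diagonal_apply]
    split_ifs <;> simp
  rw [this, Matrix.det_neg, Fintype.card_fin]

theorem neg_pow_mul {R : Type*} [CommRing R] (m : ℕ) (D : R) :
    (-1) ^ (2 * m + 1) * D = - D := by
  rw [Odd.neg_one_pow ⟨m, rfl⟩, neg_one_mul]

theorem zeta_charpoly {R : Type*} [CommRing R] (m : ℕ) (v : Fin (2 * m + 1) → R) :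
    dd (2 * m + 1) 1 1 (fun j => Polynomial.C (v j)) Polynomial.X -
      dd (2 * m + 1) 1 1 0 Polynomial.X = -
      ((floq (2 * m + 1) 1 1 v).charpoly -
        (floq (2 * m + 1) 1 1 (0 : Fin (2 * m + 1) → R)).charpoly) := by
  have e1 := dd_charpoly (2 * m + 1) (1 : R) 1 v
  have e2 := dd_charpoly (2 * m + 1) (1 : R) 1 (0 : Fin (2 * m + 1) → R)
  have z0 : (fun j => Polynomial.C ((0 : Fin (2 * m + 1) → R) j)) =
      (0 : Fin (2 * m + 1) → Polynomial R) := by
    funext j
    simp
  rw [Polynomial.C_1] at e1 e2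
  rw [z0] at e2
  rw [e1, e2, neg_pow_mul, neg_pow_mul]
  ring

theorem monic_sub_coeff {R : Type*} [CommRing R] [Nontrivial R] (q : ℕ)
    (A B : Matrix (Fin q) (Fin q) R) (n : ℕ) (hn : q ≤ n) :
    (A.charpoly - B.charpoly).coeff n = 0 := by
  apply Polynomial.coeff_eq_zero_of_degree_lt
  have hA : A.charpoly.degree = q := by rw [Matrix.charpoly_degree_eq_dim, Fintype.card_fin]
  have hB : B.charpoly.degree = q := by rw [Matrix.charpoly_degree_eq_dim, Fintype.card_fin]
  refine lt_of_lt_of_le (Polynomial.degree_sub_lt_left (by rw [hA, hB])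
    (Matrix.charpoly_monic _).ne_zero ?_) ?_
  · rw [(Matrix.charpoly_monic _).leadingCoeff, (Matrix.charpoly_monic _).leadingCoeff]
  · rw [hA]
    exact_mod_cast hn

theorem zeta_deg {R : Type*} [CommRing R] [Nontrivial R] (m : ℕ) (v : Fin (2 * m + 1) → R)
    (n : ℕ) (hn : 2 * m + 1 ≤ n) :
    (dd (2 * m + 1) 1 1 (fun j => Polynomial.C (v j)) Polynomial.X -
      dd (2 * m + 1) 1 1 0 Polynomial.X).coeff n = 0 := by
  rw [zeta_charpoly, Polynomial.coeff_neg, monic_sub_coeff _ _ _ n hn, neg_zero]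

theorem zp_deg (m : ℕ) (n : ℕ) (hn : 2 * m + 1 ≤ n) : (zp m).coeff n = 0 :=
  zeta_deg m (av m (fun i => (X i : MvPolynomial (Fin m) ℂ))) n hn

/-- The sum over indices below `2m + 1`, split by parity. -/
theorem sum_split {R : Type*} [CommRing R] (m : ℕ) (f : ℕ → R) (hf : ∀ i, Even i → f i = 0) :
    ∑ i ∈ Finset.range (2 * m + 1), f i = ∑ i ∈ Finset.range m, f (2 * i + 1) := by
  induction m with
  | zero => simp [hf 0 (by norm_num)]
  | succ m ih =>
    have : 2 * (m + 1) + 1 = 2 * m + 1 + 1 + 1 := by ring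
    rw [this, Finset.sum_range_succ, Finset.sum_range_succ, ih, Finset.sum_range_succ,
      hf (2 * m + 1 + 1) ⟨m + 1, by ring⟩, add_zero]

/-- The polynomial `Z` with `ζ(x) = x Z(x²)`. -/
noncomputable def zq (m : ℕ) : Polynomial (MvPolynomial (Fin m) ℂ) :=
  ∑ i ∈ Finset.range m, Polynomial.monomial i ((zp m).coeff (2 * i + 1))

theorem zq_coeff (m i : ℕ) (hi : i < m) : (zq m).coeff i = (zp m).coeff (2 * i + 1) := by
  unfold zq
  rw [Polynomial.finsetSum_coeff, Finset.sum_eq_single i]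
  · rw [Polynomial.coeff_monomial, if_pos rfl]
  · intro j _ hj
    rw [Polynomial.coeff_monomial, if_neg hj]
  · intro h
    exact absurd (Finset.mem_range.mpr hi) h

theorem zq_degree (m : ℕ) : (zq m).degree < m := by
  rw [Polynomial.degree_lt_iff_coeff_zero]
  intro n hn
  unfold zq
  rw [Polynomial.finsetSum_coeff]
  apply Finset.sum_eq_zero
  intro j hj
  rw [Polynomial.coeff_monomial, if_neg]
  have := Finset.mem_range.mp hj
  omega

theorem zp_zq (m : ℕ) (hm : 1 ≤ m) (x : MvPolynomial (Fin m) ℂ) :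
    (zp m).eval x = x * (zq m).eval (x ^ 2) := by
  have hd : (zp m).natDegree < 2 * m + 1 := by
    by_contra h
    push Not at h
    have h0 : (zp m).natDegree ≠ 0 := by omega
    have h1 := zp_deg m _ h
    rw [Polynomial.coeff_natDegree, Polynomial.leadingCoeff_eq_zero] at h1
    rw [h1, Polynomial.natDegree_zero] at h0
    exact h0 rfl
  rw [Polynomial.eval_eq_sum_range' hd, sum_split m _ (fun i hi => by rw [zp_even m hm i hi, zero_mul])]
  unfold zq
  rw [Polynomial.eval_finsetSum, Finset.mul_sum]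
  refine Finset.sum_congr rfl fun i _ => ?_
  rw [Polynomial.eval_monomial, ← pow_mul, pow_succ]
  ring

theorem totalDegree_av (m : ℕ) (j : Fin (2 * m + 1)) :
    (av m (fun i => (X i : MvPolynomial (Fin m) ℂ)) j).totalDegree ≤ 1 := by
  unfold av
  split_ifs
  · rw [totalDegree_X]
  · rw [totalDegree_neg, totalDegree_X]
  · simp

theorem zp_lead (m : ℕ) (j : Fin m) :
    MonomialOrder.degLex.Monic ((zp m).eval (X j)) ∧
      MonomialOrder.degLex.degree ((zp m).eval (X j)) = Finsupp.single j (2 * m + 1) := by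
  have hX : (X j : MvPolynomial (Fin m) ℂ).totalDegree ≤ 1 := by rw [totalDegree_X]
  have h1 := totalDegree_dd (2 * m + 1) (by omega) (av m (fun i => (X i : MvPolynomial (Fin m) ℂ)))
    (totalDegree_av m) (X j) hX
  have h2 := totalDegree_dd (2 * m + 1) (by omega) (0 : Fin (2 * m + 1) → MvPolynomial (Fin m) ℂ)
    (fun j => by simp) (X j) hX
  have p1 : ∏ i, (av m (fun i => (X i : MvPolynomial (Fin m) ℂ)) i - X j) = 0 := by
    apply Finset.prod_eq_zero (Finset.mem_univ (⟨j, by omega⟩ : Fin (2 * m + 1)))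
    have : ((⟨(j : ℕ), by omega⟩ : Fin (2 * m + 1)) : ℕ) < m := j.isLt
    unfold av
    rw [dif_pos this]
    simp
  have p2 : ∏ i : Fin (2 * m + 1), ((0 : Fin (2 * m + 1) → MvPolynomial (Fin m) ℂ) i - X j) =
      - X j ^ (2 * m + 1) := by
    simp only [Pi.zero_apply, zero_sub, Finset.prod_const, Finset.card_univ, Fintype.card_fin]
    rw [Odd.neg_pow ⟨m, rfl⟩]
  rw [p1, sub_zero] at h1
  rw [p2, sub_neg_eq_add] at h2
  set E := dd (2 * m + 1) 1 1 (av m (fun i => (X i : MvPolynomial (Fin m) ℂ))) (X j) -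
    (dd (2 * m + 1) 1 1 (0 : Fin (2 * m + 1) → MvPolynomial (Fin m) ℂ) (X j) +
      X j ^ (2 * m + 1)) with hE
  have hEd : E.totalDegree < 2 * m + 1 :=
    lt_of_le_of_lt (totalDegree_sub _ _) (max_lt h1 h2)
  have hz : (zp m).eval (X j) = X j ^ (2 * m + 1) + E := by
    rw [zp_eval, hE]; ring
  have hdX : MonomialOrder.degLex.degree ((X j : MvPolynomial (Fin m) ℂ) ^ (2 * m + 1)) =
      Finsupp.single j (2 * m + 1) := by
    rw [MonomialOrder.degree_pow, MonomialOrder.degree_X, Finsupp.smul_single, smul_eq_mul,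
      mul_one]
  have hmX : MonomialOrder.degLex.Monic ((X j : MvPolynomial (Fin m) ℂ) ^ (2 * m + 1)) :=
    MonomialOrder.Monic.pow MonomialOrder.leadingCoeff_X
  have hlt : MonomialOrder.degLex.toSyn (MonomialOrder.degLex.degree E) <
      MonomialOrder.degLex.toSyn (MonomialOrder.degLex.degree
        ((X j : MvPolynomial (Fin m) ℂ) ^ (2 * m + 1))) := by
    rw [hdX, MonomialOrder.degLex_lt_iff, Finsupp.DegLex.lt_iff]
    left
    simp only [ofDegLex_toDegLex]
    rw [MvPolynomial.degree_degLexDegree, Finsupp.degree_single]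
    exact hEd
  rw [hz]
  exact ⟨hmX.add_of_lt hlt, by rw [MonomialOrder.degree_add_of_lt hlt, hdX]⟩

theorem zq_lead (m : ℕ) (j : Fin m) :
    MonomialOrder.degLex.Monic ((zq m).eval (X j ^ 2)) ∧
      MonomialOrder.degLex.degree ((zq m).eval (X j ^ 2)) = Finsupp.single j (2 * m) := by
  have hm : 1 ≤ m := by have := j.isLt; omega
  obtain ⟨h1, h2⟩ := zp_lead m j
  rw [zp_zq m hm] at h1 h2
  have hne : (X j : MvPolynomial (Fin m) ℂ) * (zq m).eval (X j ^ 2) ≠ 0 := h1.ne_zero
  constructor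
  · have h3 : MonomialOrder.degLex.leadingCoeff
        ((X j : MvPolynomial (Fin m) ℂ) * (zq m).eval (X j ^ 2)) = 1 := h1
    rw [MonomialOrder.leadingCoeff_mul, MonomialOrder.leadingCoeff_X, one_mul] at h3
    exact h3
  · rw [MonomialOrder.degree_mul' hne, MonomialOrder.degree_X] at h2
    have e : (Finsupp.single j (2 * m + 1) : Fin m →₀ ℕ) =
        Finsupp.single j 1 + Finsupp.single j (2 * m) := by
      rw [← Finsupp.single_add]; congr 1; ring
    rw [e] at h2
    exact add_left_cancel h2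

/-- The ideal generated by the coefficients of `ζ`. -/
noncomputable def idl (m : ℕ) : Ideal (MvPolynomial (Fin m) ℂ) :=
  Ideal.span (Set.range fun n => (zp m).coeff n)

theorem big_not_mem (m : ℕ) (hm : 1 ≤ m) (r : Fin m →₀ ℕ)
    (hr : ∀ k : Fin m, r k < 2 * ((k : ℕ) + 1)) : monomial r (1 : ℂ) ∉ idl m := by
  obtain ⟨g, hg1, hg2⟩ := tower (K := ℂ) m le_rfl (zq m) (zq_degree m) (fun j _ => zq_lead m j)
  intro hmem
  refine not_mem_span MonomialOrder.degLex g (fun k => 2 * ((k : ℕ) + 1)) (fun k => by omega)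
    (fun k => (hg1 k k.isLt).1) (fun k => (hg1 k k.isLt).2) r hr ?_
  have hle : idl m ≤ Ideal.span (Set.range g) := by
    unfold idl
    rw [Ideal.span_le]
    rintro _ ⟨n, rfl⟩
    show (zp m).coeff n ∈ Ideal.span (Set.range g)
    rcases Nat.even_or_odd n with hn | hn
    · rw [zp_even m hm n hn]; exact Ideal.zero_mem _
    · obtain ⟨i, rfl⟩ := hn
      by_cases hi : i < m
      · rw [← zq_coeff m i hi]
        exact Ideal.span_mono (Set.image_subset_range _ _) (hg2 i)
      · rw [zp_deg m _ (by omega)]; exact Ideal.zero_mem _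
  exact hle hmem

end Univ


/-! ### GQ1 -/

section Mod

variable {B n : Type*} [CommRing B] [Fintype n] [DecidableEq n]

theorem prod_sub_mem {ι : Type*} (𝔞 : Ideal B) (s : Finset ι) (f g : ι → B)
    (h : ∀ i ∈ s, f i - g i ∈ 𝔞) : ∏ i ∈ s, f i - ∏ i ∈ s, g i ∈ 𝔞 := by
  rw [← Ideal.Quotient.eq, map_prod, map_prod]
  refine Finset.prod_congr rfl fun i hi => ?_
  rw [Ideal.Quotient.eq]
  exact h i hi

theorem det_mod (𝔞 : Ideal B) (N N' : Matrix n n B) (p r : n) (hpr : p ≠ r)
    (hp : ∀ j, N p j ∈ 𝔞) (hr : ∀ j, N r j ∈ 𝔞) (hp' : ∀ j, N' p j = N p j)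
    (hr' : ∀ j, N' r j = N r j) (h : ∀ i j, N i j - N' i j ∈ 𝔞) :
    N.det - N'.det ∈ 𝔞 ^ 3 := by
  rw [← Matrix.det_transpose N, ← Matrix.det_transpose N', Matrix.det_apply', Matrix.det_apply',
    ← Finset.sum_sub_distrib]
  refine Ideal.sum_mem _ fun σ _ => ?_
  rw [← mul_sub]
  refine Ideal.mul_mem_left _ _ ?_
  simp only [Matrix.transpose_apply]
  have hrp : r ∈ Finset.univ.erase p := Finset.mem_erase.mpr ⟨hpr.symm, Finset.mem_univ r⟩
  rw [← Finset.mul_prod_erase Finset.univ (fun i => N i (σ i)) (Finset.mem_univ p),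
    ← Finset.mul_prod_erase Finset.univ (fun i => N' i (σ i)) (Finset.mem_univ p),
    ← Finset.mul_prod_erase (Finset.univ.erase p) (fun i => N i (σ i)) hrp,
    ← Finset.mul_prod_erase (Finset.univ.erase p) (fun i => N' i (σ i)) hrp, hp', hr']
  have h3 := prod_sub_mem 𝔞 ((Finset.univ.erase p).erase r) (fun i => N i (σ i))
    (fun i => N' i (σ i)) (fun i _ => h i (σ i))
  have e : ∀ a b x y : B, a * (b * x) - a * (b * y) = (a * b) * (x - y) := by
    intros; ring
  rw [e, pow_succ, pow_two]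
  exact Ideal.mul_mem_mul (Ideal.mul_mem_mul (hp _) (hr _)) h3

theorem det_two (D wp wr : n → B) (p r : n) (hpr : p ≠ r) :
    (Matrix.of fun k j => if k = p then wp j else if k = r then wr j else
      if k = j then D k else 0).det =
    (∏ k ∈ (Finset.univ.erase p).erase r, D k) * (wp p * wr r - wp r * wr p) := by
  have hrp : r ∈ Finset.univ.erase p := Finset.mem_erase.mpr ⟨hpr.symm, Finset.mem_univ r⟩
  set N : Matrix n n B := Matrix.of fun k j => if k = p then wp j else if k = r then wr j else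
      if k = j then D k else 0 with hN
  rw [← Matrix.det_transpose, Matrix.det_apply']
  simp only [Matrix.transpose_apply]
  have hprod : ∀ σ : Equiv.Perm n, ∏ i, N i (σ i) =
      wp (σ p) * (wr (σ r) * ∏ k ∈ (Finset.univ.erase p).erase r, N k (σ k)) := by
    intro σ
    rw [← Finset.mul_prod_erase Finset.univ (fun i => N i (σ i)) (Finset.mem_univ p),
      ← Finset.mul_prod_erase (Finset.univ.erase p) (fun i => N i (σ i)) hrp]
    simp [hN, hpr.symm]
  have hne : (1 : Equiv.Perm n) ≠ Equiv.swap p r := by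
    intro h
    have := congrArg (fun σ : Equiv.Perm n => σ p) h
    simp at this
    exact hpr this
  rw [Fintype.sum_eq_add (1 : Equiv.Perm n) (Equiv.swap p r) hne]
  · rw [hprod, hprod]
    have e1 : ∏ k ∈ (Finset.univ.erase p).erase r, N k ((1 : Equiv.Perm n) k) =
        ∏ k ∈ (Finset.univ.erase p).erase r, D k := by
      refine Finset.prod_congr rfl fun k hk => ?_
      have h1 : k ≠ r := Finset.ne_of_mem_erase hk
      have h2 : k ≠ p := Finset.ne_of_mem_erase (Finset.mem_of_mem_erase hk)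
      simp [hN, h1, h2]
    have e2 : ∏ k ∈ (Finset.univ.erase p).erase r, N k ((Equiv.swap p r) k) =
        ∏ k ∈ (Finset.univ.erase p).erase r, D k := by
      refine Finset.prod_congr rfl fun k hk => ?_
      have h1 : k ≠ r := Finset.ne_of_mem_erase hk
      have h2 : k ≠ p := Finset.ne_of_mem_erase (Finset.mem_of_mem_erase hk)
      rw [Equiv.swap_apply_of_ne_of_ne h2 h1]
      simp [hN, h1, h2]
    rw [e1, e2, Equiv.swap_apply_left, Equiv.swap_apply_right, Equiv.Perm.sign_swap hpr]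
    simp
    ring
  · intro σ hσ
    rw [hprod]
    have : ∃ k, k ≠ p ∧ k ≠ r ∧ σ k ≠ k := by
      by_contra hcon
      push Not at hcon
      have hp1 : σ p = p ∨ σ p = r := by
        by_contra h
        push Not at h
        have := hcon (σ p) h.1 h.2
        exact h.1 (σ.injective this)
      have hr1 : σ r = p ∨ σ r = r := by
        by_contra h
        push Not at h
        have := hcon (σ r) h.1 h.2
        exact h.2 (σ.injective this)
      rcases hp1 with h1 | h1
      · have h2 : σ r = r := by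
          rcases hr1 with h | h
          · exact absurd (σ.injective (h1.trans h.symm)) hpr
          · exact h
        apply hσ.1
        ext k
        by_cases hk : k = p
        · rw [hk, h1]; rfl
        · by_cases hk' : k = r
          · rw [hk', h2]; rfl
          · rw [hcon k hk hk']; rfl
      · have h2 : σ r = p := by
          rcases hr1 with h | h
          · exact h
          · exact absurd (σ.injective (h1.trans h.symm)) hpr
        apply hσ.2
        ext k
        by_cases hk : k = p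
        · rw [hk, h1, Equiv.swap_apply_left]
        · by_cases hk' : k = r
          · rw [hk', h2, Equiv.swap_apply_right]
          · rw [hcon k hk hk', Equiv.swap_apply_of_ne_of_ne hk hk']
    obtain ⟨k, h1, h2, h3⟩ := this
    have hz : ∏ k ∈ (Finset.univ.erase p).erase r, N k (σ k) = 0 := by
      apply Finset.prod_eq_zero (i := k)
      · exact Finset.mem_erase.mpr ⟨h2, Finset.mem_erase.mpr ⟨h1, Finset.mem_univ k⟩⟩
      · simp [hN, h1, h2, Ne.symm h3]
    rw [hz]
    ring

end Mod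


/-! ### GQ2 -/

section Fourier

variable (q : ℕ) (ω : ℂ)

def Fm : Matrix (Fin q) (Fin q) ℂ := Matrix.of fun j l => ω ^ ((j : ℕ) * l)

def Gm : Matrix (Fin q) (Fin q) ℂ := Matrix.of fun k j => ω ^ (((q - 1) * k) * (j : ℕ))

def Pm (R : Type*) [CommRing R] : Matrix (Fin q) (Fin q) R :=
  Matrix.of fun i j => if (i : ℕ) + 1 = j ∨ ((i : ℕ) + 1 = q ∧ (j : ℕ) = 0) then 1 else 0

theorem GF (hq : 0 < q) (hω : IsPrimitiveRoot ω q) : Gm q ω * Fm q ω = (q : ℂ) • 1 := by
  ext k l
  rw [Matrix.mul_apply]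
  simp only [Gm, Fm, Matrix.of_apply, Matrix.smul_apply, smul_eq_mul]
  have h1 : ∀ j : Fin q, ω ^ (((q - 1) * k) * (j : ℕ)) * ω ^ ((j : ℕ) * l) =
      (ω ^ ((q - 1) * (k : ℕ) + l)) ^ (j : ℕ) := by
    intro j
    rw [← pow_add, ← pow_mul]
    congr 1
    ring
  rw [Finset.sum_congr rfl (fun j _ => h1 j)]
  rw [Fin.sum_univ_eq_sum_range (fun j => (ω ^ ((q - 1) * (k : ℕ) + l)) ^ j) q]
  obtain ⟨q', rfl⟩ : ∃ q', q = q' + 1 := ⟨q - 1, by omega⟩
  simp only [Nat.add_sub_cancel]
  by_cases hkl : k = l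
  · subst hkl
    have : q' * (k : ℕ) + k = (q' + 1) * k := by ring
    rw [this, pow_mul, hω.pow_eq_one, one_pow]
    simp
  · rw [Matrix.one_apply_ne hkl, mul_zero]
    set x := ω ^ (q' * (k : ℕ) + l) with hx
    have hx1 : x ≠ 1 := by
      rw [hx, Ne, hω.pow_eq_one_iff_dvd]
      rintro ⟨c, hc⟩
      apply hkl
      have h2 : ((q' + 1 : ℕ) : ℤ) ∣ (k : ℤ) - l := by
        refine ⟨(k : ℤ) - c, ?_⟩
        have h3 : (q' : ℤ) * k + l = (q' + 1) * c := by exact_mod_cast hc
        push_cast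
        linarith
      have h4 : |(k : ℤ) - l| < ((q' + 1 : ℕ) : ℤ) := by
        have := k.isLt
        have := l.isLt
        rw [abs_lt]
        constructor <;> omega
      have h5 := Int.eq_zero_of_abs_lt_dvd h2 h4
      apply Fin.ext
      omega
    have hxq : x ^ (q' + 1) = 1 := by
      rw [hx, ← pow_mul, mul_comm, pow_mul, hω.pow_eq_one, one_pow]
    have h6 := geom_sum_mul x (q' + 1)
    rw [hxq, sub_self] at h6
    rcases mul_eq_zero.mp h6 with h | h
    · exact h
    · exact absurd (sub_eq_zero.mp h) hx1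

theorem PF (hq : 3 ≤ q) (hω : ω ^ q = 1) :
    Pm q ℂ * Fm q ω = Fm q ω * Matrix.diagonal (fun l : Fin q => ω ^ (l : ℕ)) := by
  ext i l
  rw [Matrix.mul_apply, Matrix.mul_diagonal]
  have hi := i.isLt
  by_cases h : (i : ℕ) + 1 = q
  · rw [Finset.sum_eq_single (⟨0, by omega⟩ : Fin q)]
    · simp only [Pm, Fm, Matrix.of_apply]
      have : (i : ℕ) + 1 = 0 ∨ (i : ℕ) + 1 = q ∧ True := Or.inr ⟨h, trivial⟩
      simp only [h, true_and, or_true, if_true, zero_mul, pow_zero, mul_one]
      rw [← pow_add]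
      have e : (i : ℕ) * l + l = q * l := by
        calc (i : ℕ) * l + l = ((i : ℕ) + 1) * l := by ring
          _ = q * l := by rw [h]
      rw [e, pow_mul, hω, one_pow]
    · intro j _ hj
      have hj0 : (j : ℕ) ≠ 0 := fun h0 => hj (Fin.ext h0)
      have hjl := j.isLt
      simp only [Pm, Matrix.of_apply]
      rw [if_neg, zero_mul]
      rintro (h1 | h1)
      · omega
      · exact hj0 h1.2
    · intro h0
      exact absurd (Finset.mem_univ _) h0
  · rw [Finset.sum_eq_single (⟨i + 1, by omega⟩ : Fin q)]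
    · simp only [Pm, Fm, Matrix.of_apply, true_or, if_true, one_mul]
      rw [← pow_add]
      congr 1
      ring
    · intro j _ hj
      have hj0 : (j : ℕ) ≠ i + 1 := fun h0 => hj (Fin.ext h0)
      simp only [Pm, Matrix.of_apply]
      rw [if_neg, zero_mul]
      rintro (h1 | h1)
      · exact hj0 h1.symm
      · exact h h1.1
    · intro h0
      exact absurd (Finset.mem_univ _) h0

theorem PtF (hq : 3 ≤ q) (hω : ω ^ q = 1) :
    (Pm q ℂ)ᵀ * Fm q ω = Fm q ω * Matrix.diagonal (fun l : Fin q => ω ^ ((q - 1) * (l : ℕ))) := by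
  ext i l
  rw [Matrix.mul_apply, Matrix.mul_diagonal]
  have hi := i.isLt
  obtain ⟨q', rfl⟩ : ∃ q', q = q' + 1 := ⟨q - 1, by omega⟩
  simp only [Nat.add_sub_cancel]
  by_cases h : (i : ℕ) = 0
  · rw [Finset.sum_eq_single (⟨q', by omega⟩ : Fin (q' + 1))]
    · simp only [Pm, Fm, Matrix.of_apply, Matrix.transpose_apply]
      simp [h]
    · intro j _ hj
      have hj0 : (j : ℕ) ≠ q' := fun h0 => hj (Fin.ext h0)
      simp only [Pm, Matrix.of_apply, Matrix.transpose_apply]
      rw [if_neg, zero_mul]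
      rintro (h1 | h1)
      · omega
      · omega
    · intro h0
      exact absurd (Finset.mem_univ _) h0
  · rw [Finset.sum_eq_single (⟨i - 1, by omega⟩ : Fin (q' + 1))]
    · simp only [Pm, Fm, Matrix.of_apply, Matrix.transpose_apply]
      have e0 : (i : ℕ) - 1 + 1 = i := by omega
      rw [e0]
      simp only [true_or, if_true, one_mul]
      rw [← pow_add]
      have e : (i : ℕ) * l + q' * l = ((i : ℕ) - 1) * l + (q' + 1) * l := by
        obtain ⟨i', hi'⟩ : ∃ i', (i : ℕ) = i' + 1 := ⟨i - 1, by omega⟩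
        rw [hi']
        simp only [Nat.add_sub_cancel]
        ring
      rw [e, pow_add, pow_mul ω (q' + 1), hω, one_pow, mul_one]
    · intro j _ hj
      have hj0 : (j : ℕ) ≠ i - 1 := fun h0 => hj (Fin.ext h0)
      simp only [Pm, Matrix.of_apply, Matrix.transpose_apply]
      rw [if_neg, zero_mul]
      rintro (h1 | h1)
      · omega
      · exact h h1.2
    · intro h0
      exact absurd (Finset.mem_univ _) h0

theorem floq_P {R : Type*} [CommRing R] (hq : 3 ≤ q) (v : Fin q → R) :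
    floq q 1 1 v = Matrix.diagonal v + (Pm q R + (Pm q R)ᵀ) := by
  ext i j
  have hi := i.isLt
  have hj := j.isLt
  simp only [floq, Pm, Matrix.of_apply, Matrix.add_apply, Matrix.transpose_apply,
    Matrix.diagonal_apply]
  by_cases hij : i = j
  · subst hij
    simp only [if_true]
    rw [if_neg, add_zero, add_zero]
    rintro (h1 | h1) <;> omega
  · have hij' : (i : ℕ) ≠ j := fun h => hij (Fin.ext h)
    simp only [if_neg hij, zero_add]
    by_cases h1 : (i : ℕ) + 1 = j ∨ ((i : ℕ) + 1 = q ∧ (j : ℕ) = 0)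
    · have h2 : ¬ ((j : ℕ) + 1 = i ∨ ((j : ℕ) + 1 = q ∧ (i : ℕ) = 0)) := by
        rcases h1 with h1 | h1 <;> rintro (h2 | h2) <;> omega
      rw [if_pos h1, if_neg h2, add_zero]
      split_ifs with c1 c2 c3 <;> first | rfl | (exfalso; omega)
    · rw [if_neg h1, zero_add]
      by_cases h2 : ((j : ℕ) + 1 = i ∨ ((j : ℕ) + 1 = q ∧ (i : ℕ) = 0))
      · rw [if_pos h2]
        split_ifs with c1 c2 c3 <;> first | rfl | (exfalso; omega)
      · rw [if_neg h2]
        split_ifs with c1 c2 c3 <;> first | rfl | (exfalso; omega)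

/-- Conjugating `L_V - x` by the Fourier matrix. -/
theorem fourier_conj {A : Type*} [CommRing A] (φ : ℂ →+* A) (hq : 3 ≤ q)
    (hω : IsPrimitiveRoot ω q) (v : Fin q → A) (x : A) :
    (Gm q ω).map φ * (floq q 1 1 v - x • (1 : Matrix (Fin q) (Fin q) A)) * (Fm q ω).map φ =
      (Gm q ω).map φ * Matrix.diagonal v * (Fm q ω).map φ +
      Matrix.diagonal (fun l : Fin q => φ (q : ℂ) *
        (φ (ω ^ (l : ℕ) + ω ^ ((q - 1) * (l : ℕ))) - x)) := by
  have h1 : (Gm q ω).map φ * (Fm q ω).map φ = φ (q : ℂ) • (1 : Matrix (Fin q) (Fin q) A) := by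
    rw [← Matrix.map_mul, GF q ω (by omega) hω]
    ext i j
    simp only [Matrix.map_apply, Matrix.smul_apply, Matrix.one_apply, smul_eq_mul]
    split_ifs <;> simp
  have h2 : (Pm q A) = (Pm q ℂ).map φ := by
    ext i j
    simp only [Pm, Matrix.of_apply, Matrix.map_apply]
    split_ifs <;> simp
  have h3 : ((Pm q A) + (Pm q A)ᵀ) * (Fm q ω).map φ = (Fm q ω).map φ *
      Matrix.diagonal (fun l : Fin q => φ (ω ^ (l : ℕ) + ω ^ ((q - 1) * (l : ℕ)))) := by
    rw [h2, Matrix.add_mul]
    have e1 := congrArg (fun M => M.map φ) (PF q ω hq hω.pow_eq_one)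
    have e2 := congrArg (fun M => M.map φ) (PtF q ω hq hω.pow_eq_one)
    simp only [Matrix.map_mul] at e1 e2
    rw [e1]
    have e3 : ((Pm q ℂ).map φ)ᵀ = ((Pm q ℂ)ᵀ).map φ := rfl
    rw [e3, e2, ← Matrix.mul_add]
    congr 1
    ext i j
    simp only [Matrix.add_apply, Matrix.map_apply, Matrix.diagonal_apply]
    split_ifs <;> simp
  rw [floq_P q hq v]
  have h4 : (Matrix.diagonal v + (Pm q A + (Pm q A)ᵀ) - x • (1 : Matrix (Fin q) (Fin q) A)) *
      (Fm q ω).map φ = Matrix.diagonal v * (Fm q ω).map φ + (Fm q ω).map φ *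
      Matrix.diagonal (fun l : Fin q => φ (ω ^ (l : ℕ) + ω ^ ((q - 1) * (l : ℕ))) - x) := by
    rw [Matrix.sub_mul, Matrix.add_mul, h3]
    have e4 : Matrix.diagonal (fun l : Fin q => φ (ω ^ (l : ℕ) + ω ^ ((q - 1) * (l : ℕ))) - x) =
        Matrix.diagonal (fun l : Fin q => φ (ω ^ (l : ℕ) + ω ^ ((q - 1) * (l : ℕ)))) -
          x • (1 : Matrix (Fin q) (Fin q) A) := by
      ext i j
      simp only [Matrix.sub_apply, Matrix.diagonal_apply, Matrix.smul_apply, Matrix.one_apply,
        smul_eq_mul]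
      split_ifs <;> simp
    rw [e4, Matrix.mul_sub, Matrix.mul_smul, Matrix.mul_one, Matrix.smul_mul, Matrix.one_mul]
    abel
  rw [Matrix.mul_assoc, h4, Matrix.mul_add, ← Matrix.mul_assoc, ← Matrix.mul_assoc, h1,
    Matrix.smul_mul, Matrix.one_mul]
  congr 1
  ext i j
  simp only [Matrix.smul_apply, Matrix.diagonal_apply, smul_eq_mul]
  split_ifs <;> simp

/-- The eigenvalues: `ω^l + ω^{-l} = ω^a + ω^{-a}` only for `l = a` and `l = q - a`. -/
theorem eig_ne (hq : 3 ≤ q) (hω : IsPrimitiveRoot ω q) (a l : ℕ) (ha : 1 ≤ a) (haq : a < q)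
    (hlq : l < q) (h1 : l ≠ a) (h2 : l ≠ q - a) :
    ω ^ l + ω ^ ((q - 1) * l) ≠ ω ^ a + ω ^ ((q - 1) * a) := by
  intro h
  have hl : ω ^ ((q - 1) * l) * ω ^ l = 1 := by
    rw [← pow_add]
    have : (q - 1) * l + l = q * l := by
      obtain ⟨q', rfl⟩ : ∃ q', q = q' + 1 := ⟨q - 1, by omega⟩
      simp only [Nat.add_sub_cancel]; ring
    rw [this, pow_mul, hω.pow_eq_one, one_pow]
  have ha' : ω ^ ((q - 1) * a) * ω ^ a = 1 := by
    rw [← pow_add]
    have : (q - 1) * a + a = q * a := by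
      obtain ⟨q', rfl⟩ : ∃ q', q = q' + 1 := ⟨q - 1, by omega⟩
      simp only [Nat.add_sub_cancel]; ring
    rw [this, pow_mul, hω.pow_eq_one, one_pow]
  -- (ω^l - ω^a) (1 - ω^{-l} ω^{-a}) = 0
  have h3 : (ω ^ l - ω ^ a) * (1 - ω ^ ((q - 1) * l) * ω ^ ((q - 1) * a)) = 0 := by
    linear_combination h - ω ^ ((q - 1) * a) * hl + ω ^ ((q - 1) * l) * ha'
  rcases mul_eq_zero.mp h3 with h4 | h4
  · exact h1 (hω.pow_inj hlq haq (sub_eq_zero.mp h4))
  · have h5 : ω ^ l * ω ^ a = 1 := by
      have h6 : ω ^ ((q - 1) * l) * ω ^ ((q - 1) * a) = 1 := (sub_eq_zero.mp h4).symm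
      calc ω ^ l * ω ^ a = (ω ^ ((q - 1) * l) * ω ^ ((q - 1) * a)) * (ω ^ l * ω ^ a) := by
            rw [h6, one_mul]
        _ = (ω ^ ((q - 1) * l) * ω ^ l) * (ω ^ ((q - 1) * a) * ω ^ a) := by ring
        _ = 1 := by rw [hl, ha', mul_one]
    rw [← pow_add, hω.pow_eq_one_iff_dvd] at h5
    obtain ⟨c, hc⟩ := h5
    have hc1 : c = 1 := by
      have hpos : 0 < l + a := by omega
      have : 0 < c := by
        rcases Nat.eq_zero_or_pos c with h0 | h0
        · rw [h0, mul_zero] at hc; omega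
        · exact h0
      have hlt : q * c < q * 2 := by omega
      have : c < 2 := lt_of_mul_lt_mul_left hlt (Nat.zero_le q)
      omega
    rw [hc1, mul_one] at hc
    omega

end Fourier


/-! ### GQ3 -/

section Quad
open MvPolynomial

/-- The Fourier coefficient of the universal antisymmetric potential. -/
noncomputable def Lf (m : ℕ) (ω : ℂ) (n : ℕ) : MvPolynomial (Fin m) ℂ :=
  ∑ j : Fin (2 * m + 1), C (ω ^ (n * (j : ℕ))) * av m (fun i => (X i : MvPolynomial (Fin m) ℂ)) j

theorem av_mem (m : ℕ) (j : Fin (2 * m + 1)) :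
    av m (fun i => (X i : MvPolynomial (Fin m) ℂ)) j ∈ idealOfVars (Fin m) ℂ := by
  unfold av
  split_ifs
  · exact Ideal.subset_span ⟨_, rfl⟩
  · exact (Ideal.neg_mem_iff _).mpr (Ideal.subset_span ⟨_, rfl⟩)
  · exact Ideal.zero_mem _

theorem eval_mem_idl (m : ℕ) (x : MvPolynomial (Fin m) ℂ) : (zp m).eval x ∈ idl m := by
  rw [Polynomial.eval_eq_sum_range]
  refine Ideal.sum_mem _ fun i _ => Ideal.mul_mem_right _ _ ?_
  exact Ideal.subset_span ⟨i, rfl⟩

theorem dd_zero_eig (m : ℕ) (hm : 1 ≤ m) (ω : ℂ) (hω : IsPrimitiveRoot ω (2 * m + 1))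
    (a : Fin (2 * m + 1)) :
    dd (2 * m + 1) 1 1 (0 : Fin (2 * m + 1) → MvPolynomial (Fin m) ℂ)
      (C (ω ^ (a : ℕ) + ω ^ ((2 * m + 1 - 1) * (a : ℕ)))) = 0 := by
  have h := congrArg Matrix.det (fourier_conj (2 * m + 1) ω
    (C : ℂ →+* MvPolynomial (Fin m) ℂ) (by omega) hω 0
    (C (ω ^ (a : ℕ) + ω ^ ((2 * m + 1 - 1) * (a : ℕ)))))
  have h1 : Matrix.diagonal (0 : Fin (2 * m + 1) → MvPolynomial (Fin m) ℂ) = 0 :=
    Matrix.diagonal_zero
  rw [h1, Matrix.mul_zero, Matrix.zero_mul, zero_add, Matrix.det_diagonal, Matrix.det_mul,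
    Matrix.det_mul] at h
  rw [Finset.prod_eq_zero (Finset.mem_univ a) (by rw [sub_self, mul_zero])] at h
  have h2 : ((Gm (2 * m + 1) ω).map (C : ℂ →+* MvPolynomial (Fin m) ℂ)).det *
      ((Fm (2 * m + 1) ω).map (C : ℂ →+* MvPolynomial (Fin m) ℂ)).det ≠ 0 := by
    rw [← Matrix.det_mul, ← Matrix.map_mul, GF (2 * m + 1) ω (by omega) hω]
    have e : (((2 * m + 1 : ℕ) : ℂ) • (1 : Matrix (Fin (2 * m + 1)) (Fin (2 * m + 1)) ℂ)).map
        (C : ℂ →+* MvPolynomial (Fin m) ℂ) =
        (C : ℂ →+* MvPolynomial (Fin m) ℂ).mapMatrix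
          (((2 * m + 1 : ℕ) : ℂ) • (1 : Matrix (Fin (2 * m + 1)) (Fin (2 * m + 1)) ℂ)) := rfl
    rw [e, ← RingHom.map_det, Matrix.det_smul, Matrix.det_one, mul_one]
    rw [Ne, C_eq_zero]
    apply pow_ne_zero
    exact_mod_cast (by omega : (2 * m + 1 : ℕ) ≠ 0)
  rcases mul_eq_zero.mp h with h3 | h3
  · rcases mul_eq_zero.mp h3 with h4 | h4
    · exfalso; apply h2; rw [h4, zero_mul]
    · exact h4
  · exfalso; apply h2; rw [h3, mul_zero]

theorem sq_mem (m : ℕ) (hm : 1 ≤ m) (ω : ℂ) (hω : IsPrimitiveRoot ω (2 * m + 1)) (n : ℕ)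
    (h1 : 1 ≤ n) (h2 : n ≤ m) : Lf m ω n ^ 2 ∈ idl m ⊔ idealOfVars (Fin m) ℂ ^ 3 := by
  obtain ⟨a, ha1, ha2, ha3⟩ : ∃ a : ℕ, 1 ≤ a ∧ a < 2 * m + 1 ∧
      (2 * a = n ∨ 2 * a = n + (2 * m + 1)) := by
    rcases Nat.even_or_odd n with hn | hn
    · obtain ⟨b, hb⟩ := hn
      exact ⟨b, by omega, by omega, Or.inl (by omega)⟩
    · obtain ⟨b, hb⟩ := hn
      exact ⟨b + m + 1, by omega, by omega, Or.inr (by omega)⟩
  set p : Fin (2 * m + 1) := ⟨a, ha2⟩ with hp
  set r : Fin (2 * m + 1) := ⟨2 * m + 1 - a, by omega⟩ with hr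
  have hpr : p ≠ r := by
    intro h
    have := congrArg Fin.val h
    simp only [hp, hr] at this
    omega
  set v := av m (fun i => (X i : MvPolynomial (Fin m) ℂ)) with hv
  set ε : ℂ := ω ^ a + ω ^ ((2 * m + 1 - 1) * a) with hε
  set Ga := (Gm (2 * m + 1) ω).map (C : ℂ →+* MvPolynomial (Fin m) ℂ) with hGa
  set Fa := (Fm (2 * m + 1) ω).map (C : ℂ →+* MvPolynomial (Fin m) ℂ) with hFa
  set d : Fin (2 * m + 1) → MvPolynomial (Fin m) ℂ := fun l =>
    C ((2 * m + 1 : ℕ) : ℂ) * (C (ω ^ (l : ℕ) + ω ^ ((2 * m + 1 - 1) * (l : ℕ))) - C ε) with hd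
  have hconj := fourier_conj (2 * m + 1) ω (C : ℂ →+* MvPolynomial (Fin m) ℂ) (by omega) hω v (C ε)
  set W := Ga * Matrix.diagonal v * Fa with hW
  set N := W + Matrix.diagonal d with hN
  -- the elementary facts about powers
  set s := ω ^ a with hs
  set s' := ω ^ ((2 * m + 1 - 1) * a) with hs'
  have hq : ω ^ (2 * m + 1) = 1 := hω.pow_eq_one
  have hss : s * s' = 1 := by
    rw [hs, hs', ← pow_add]
    have : a + (2 * m + 1 - 1) * a = (2 * m + 1) * a := by
      simp only [Nat.add_sub_cancel]; ring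
    rw [this, pow_mul, hq, one_pow]
  have hsr : ω ^ (2 * m + 1 - a) = s' := by
    have h3 : ω ^ (2 * m + 1 - a) * s = 1 := by
      rw [hs, ← pow_add]
      have : 2 * m + 1 - a + a = 2 * m + 1 := by omega
      rw [this, hq]
    calc ω ^ (2 * m + 1 - a) = ω ^ (2 * m + 1 - a) * (s * s') := by rw [hss, mul_one]
      _ = (ω ^ (2 * m + 1 - a) * s) * s' := by ring
      _ = s' := by rw [h3, one_mul]
  have hsq' : s' ^ (2 * m + 1) = 1 := by
    rw [hs', ← pow_mul, mul_comm, pow_mul, hq, one_pow]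
  have hsq : s ^ (2 * m + 1) = 1 := by
    rw [hs, ← pow_mul, mul_comm, pow_mul, hq, one_pow]
  have hsr' : ω ^ ((2 * m + 1 - 1) * (2 * m + 1 - a)) = s := by
    rw [mul_comm, pow_mul, hsr]
    simp only [Nat.add_sub_cancel]
    calc s' ^ (2 * m) = s' ^ (2 * m) * (s * s') := by rw [hss, mul_one]
      _ = s' ^ (2 * m + 1) * s := by ring
      _ = s := by rw [hsq', one_mul]
  -- entries of W
  have hWkl : ∀ k l : Fin (2 * m + 1), W k l = ∑ j : Fin (2 * m + 1),
      C (ω ^ ((2 * m + 1 - 1) * (k : ℕ) * (j : ℕ)) * ω ^ ((j : ℕ) * (l : ℕ))) * v j := by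
    intro k l
    rw [hW, Matrix.mul_apply]
    refine Finset.sum_congr rfl fun j _ => ?_
    rw [Matrix.mul_diagonal, hGa, hFa, Matrix.map_apply, Matrix.map_apply]
    simp only [Gm, Fm, Matrix.of_apply]
    rw [C_mul]
    ring
  have hWmem : ∀ k l, W k l ∈ idealOfVars (Fin m) ℂ := by
    intro k l
    rw [hWkl]
    exact Ideal.sum_mem _ fun j _ => Ideal.mul_mem_left _ _ (av_mem m j)
  have hWrp : W r p = Lf m ω n := by
    rw [hWkl, Lf]
    refine Finset.sum_congr rfl fun j _ => ?_
    congr 2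
    have e1 : ω ^ ((2 * m + 1 - 1) * (r : ℕ) * (j : ℕ)) = s ^ (j : ℕ) := by
      rw [pow_mul, hr, hsr']
    have e2 : ω ^ ((j : ℕ) * (p : ℕ)) = s ^ (j : ℕ) := by
      rw [mul_comm, pow_mul]
    rw [e1, e2, ← mul_pow, hs, ← pow_add, ← two_mul]
    rcases ha3 with h | h
    · rw [h, ← pow_mul]
    · rw [h, pow_add, hq, mul_one, ← pow_mul]
  have hWpr : W p r = ∑ j : Fin (2 * m + 1), C ((s' ^ 2) ^ (j : ℕ)) * v j := by
    rw [hWkl]
    refine Finset.sum_congr rfl fun j _ => ?_
    congr 2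
    have e1 : ω ^ ((2 * m + 1 - 1) * (p : ℕ) * (j : ℕ)) = s' ^ (j : ℕ) := by
      rw [pow_mul]
    have e2 : ω ^ ((j : ℕ) * (r : ℕ)) = s' ^ (j : ℕ) := by
      rw [mul_comm, pow_mul, hr, hsr]
    rw [e1, e2, ← mul_pow, pow_two]
  have hWpr' : W p r = - (C (s ^ 2) * Lf m ω n) := by
    rw [hWpr, ← Equiv.sum_comp Fin.revPerm, Lf, Finset.mul_sum, ← Finset.sum_neg_distrib]
    refine Finset.sum_congr rfl fun j _ => ?_
    rw [Fin.revPerm_apply, hv, av_rev]
    have hj := j.isLt
    have e3 : (s' ^ 2) ^ ((Fin.rev j : Fin (2 * m + 1)) : ℕ) = s ^ 2 * ω ^ (n * (j : ℕ)) := by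
      have e4 : ω ^ (n * (j : ℕ)) = (s ^ 2) ^ (j : ℕ) := by
        rw [hs, ← pow_mul ω a 2, mul_comm a 2]
        rcases ha3 with h | h
        · rw [h, ← pow_mul]
        · rw [h, pow_add, hq, mul_one, ← pow_mul]
      rw [e4, ← pow_succ']
      have e5 : (s' ^ 2) ^ ((Fin.rev j : Fin (2 * m + 1)) : ℕ) * (s' ^ 2) ^ ((j : ℕ) + 1) = 1 := by
        rw [← pow_add, Fin.val_rev]
        have : 2 * m + 1 - ((j : ℕ) + 1) + ((j : ℕ) + 1) = 2 * m + 1 := by omega
        rw [this, ← pow_mul, mul_comm, pow_mul, hsq', one_pow]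
      have e6 : (s' ^ 2) ^ ((j : ℕ) + 1) * (s ^ 2) ^ ((j : ℕ) + 1) = 1 := by
        rw [← mul_pow, ← mul_pow, mul_comm s' s, hss, one_pow, one_pow]
      calc (s' ^ 2) ^ ((Fin.rev j : Fin (2 * m + 1)) : ℕ) =
          (s' ^ 2) ^ ((Fin.rev j : Fin (2 * m + 1)) : ℕ) *
            ((s' ^ 2) ^ ((j : ℕ) + 1) * (s ^ 2) ^ ((j : ℕ) + 1)) := by rw [e6, mul_one]
        _ = ((s' ^ 2) ^ ((Fin.rev j : Fin (2 * m + 1)) : ℕ) * (s' ^ 2) ^ ((j : ℕ) + 1)) *
            (s ^ 2) ^ ((j : ℕ) + 1) := by ring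
        _ = _ := by rw [e5, one_mul]
    rw [e3, C_mul]
    ring
  have hsumv : W p p = 0 := by
    have e : ∑ j : Fin (2 * m + 1), v j = 0 := by
      have h3 : ∑ j : Fin (2 * m + 1), v j = - ∑ j : Fin (2 * m + 1), v j := by
        rw [← Finset.sum_neg_distrib, ← Equiv.sum_comp Fin.revPerm]
        refine Finset.sum_congr rfl fun j _ => ?_
        rw [Fin.revPerm_apply, hv, av_rev]
      have h4 : (2 : MvPolynomial (Fin m) ℂ) * ∑ j : Fin (2 * m + 1), v j = 0 := by
        linear_combination h3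
      rcases mul_eq_zero.mp h4 with h | h
      · exfalso
        have : (C (2 : ℂ) : MvPolynomial (Fin m) ℂ) = 0 := by
          rw [map_ofNat]; exact h
        rw [C_eq_zero] at this
        norm_num at this
      · exact h
    rw [hWkl, ← e]
    refine Finset.sum_congr rfl fun j _ => ?_
    have e1 : ω ^ ((2 * m + 1 - 1) * (p : ℕ) * (j : ℕ)) = s' ^ (j : ℕ) := by
      rw [pow_mul]
    have e2 : ω ^ ((j : ℕ) * (p : ℕ)) = s ^ (j : ℕ) := by
      rw [mul_comm, pow_mul]
    rw [e1, e2, ← mul_pow, mul_comm s' s, hss, one_pow, C_1, one_mul]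
  have hdp : d p = 0 := by
    simp only [hd, hp, hε]
    rw [sub_self, mul_zero]
  have hdr : d r = 0 := by
    simp only [hd, hr]
    rw [hsr, hsr', hε, add_comm s' s, sub_self, mul_zero]
  have hNp : ∀ j, N p j = W p j := by
    intro j
    rw [hN, Matrix.add_apply, Matrix.diagonal_apply]
    split_ifs with h
    · rw [hdp, add_zero]
    · rw [add_zero]
  have hNr : ∀ j, N r j = W r j := by
    intro j
    rw [hN, Matrix.add_apply, Matrix.diagonal_apply]
    split_ifs with h
    · rw [hdr, add_zero]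
    · rw [add_zero]
  set N' : Matrix (Fin (2 * m + 1)) (Fin (2 * m + 1)) (MvPolynomial (Fin m) ℂ) :=
    Matrix.of fun k j => if k = p then N p j else if k = r then N r j else
      if k = j then d k else 0 with hN'
  have hmod := det_mod (idealOfVars (Fin m) ℂ) N N' p r hpr
    (fun j => by rw [hNp]; exact hWmem _ _) (fun j => by rw [hNr]; exact hWmem _ _)
    (fun j => by simp [hN']) (fun j => by simp [hN', hpr.symm])
    (fun i j => by
      by_cases hi : i = p
      · have : N' p j = N p j := by simp [hN']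
        rw [hi, this, sub_self]; exact Ideal.zero_mem _
      · by_cases hi' : i = r
        · have : N' r j = N r j := by simp [hN', hpr.symm]
          rw [hi', this, sub_self]; exact Ideal.zero_mem _
        · have : N i j - N' i j = W i j := by
            rw [hN, hN', Matrix.add_apply, Matrix.diagonal_apply, Matrix.of_apply, if_neg hi,
              if_neg hi']
            ring
          rw [this]; exact hWmem _ _)
  have hdet' : N'.det = (∏ k ∈ (Finset.univ.erase p).erase r, d k) *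
      (C (s ^ 2) * Lf m ω n ^ 2) := by
    rw [hN', det_two d (fun j => N p j) (fun j => N r j) p r hpr]
    rw [hNp, hNp, hNr, hNr, hsumv, hWpr', hWrp]
    ring
  have hNdet : N.det ∈ idl m := by
    have e1 : N.det = Ga.det * dd (2 * m + 1) 1 1 v (C ε) * Fa.det := by
      rw [← hconj, Matrix.det_mul, Matrix.det_mul]
      rfl
    have e2 : dd (2 * m + 1) 1 1 v (C ε) = (zp m).eval (C ε) := by
      rw [zp_eval, hv]
      have := dd_zero_eig m hm ω hω p
      simp only [hp] at this
      rw [hε]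
      rw [this, sub_zero]
    rw [e1, e2]
    exact Ideal.mul_mem_right _ _ (Ideal.mul_mem_left _ _ (eval_mem_idl m _))
  set κ : ℂ := (∏ k ∈ (Finset.univ.erase p).erase r,
    (((2 * m + 1 : ℕ) : ℂ) * ((ω ^ (k : ℕ) + ω ^ ((2 * m + 1 - 1) * (k : ℕ))) - ε))) * s ^ 2 with hκ
  have hκ0 : κ ≠ 0 := by
    rw [hκ]
    apply mul_ne_zero
    · rw [Finset.prod_ne_zero_iff]
      intro k hk
      have hk1 : k ≠ r := Finset.ne_of_mem_erase hk
      have hk2 : k ≠ p := Finset.ne_of_mem_erase (Finset.mem_of_mem_erase hk)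
      apply mul_ne_zero
      · exact_mod_cast (by omega : (2 * m + 1 : ℕ) ≠ 0)
      · rw [sub_ne_zero]
        exact eig_ne (2 * m + 1) ω (by omega) hω a k ha1 ha2 k.isLt
          (fun h => hk2 (Fin.ext h)) (fun h => hk1 (Fin.ext h))
    · apply pow_ne_zero
      intro h0
      rw [h0, zero_mul] at hss
      exact zero_ne_one hss
  have hκL : C κ * Lf m ω n ^ 2 = N'.det := by
    rw [hdet', hκ, C_mul, map_prod]
    have : ∀ k : Fin (2 * m + 1), (C (((2 * m + 1 : ℕ) : ℂ) *
        ((ω ^ (k : ℕ) + ω ^ ((2 * m + 1 - 1) * (k : ℕ))) - ε)) : MvPolynomial (Fin m) ℂ) = d k := by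
      intro k
      simp only [hd]
      rw [C_mul, C_sub]
    rw [Finset.prod_congr rfl (fun k _ => this k)]
    ring
  have hfin : C κ * Lf m ω n ^ 2 ∈ idl m ⊔ idealOfVars (Fin m) ℂ ^ 3 := by
    have e : C κ * Lf m ω n ^ 2 = N.det + (-(N.det - N'.det)) := by rw [hκL]; ring
    rw [e]
    exact Ideal.add_mem _ (Ideal.mem_sup_left hNdet)
      (Ideal.mem_sup_right ((Ideal.neg_mem_iff _).mpr hmod))
  have e : Lf m ω n ^ 2 = C κ⁻¹ * (C κ * Lf m ω n ^ 2) := by
    rw [← mul_assoc, ← C_mul, inv_mul_cancel₀ hκ0, C_1, one_mul]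
  rw [e]
  exact Ideal.mul_mem_left _ _ hfin

end Quad


/-! ### GQ5 -/

section Nul
open MvPolynomial

theorem Lf_refl (m : ℕ) (ω : ℂ) (hω : ω ^ (2 * m + 1) = 1) (n : ℕ) (hn : n ≤ 2 * m + 1) :
    Lf m ω n = - (C (ω ^ (2 * m + 1 - n)) * Lf m ω (2 * m + 1 - n)) := by
  rw [Lf, ← Equiv.sum_comp Fin.revPerm, Lf, Finset.mul_sum, ← Finset.sum_neg_distrib]
  refine Finset.sum_congr rfl fun j _ => ?_
  rw [Fin.revPerm_apply, av_rev, ← mul_assoc, ← C_mul]
  have hj := j.isLt
  have e : ω ^ (n * ((Fin.rev j : Fin (2 * m + 1)) : ℕ)) =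
      ω ^ (2 * m + 1 - n) * ω ^ ((2 * m + 1 - n) * (j : ℕ)) := by
    obtain ⟨t, ht⟩ : ∃ t, 2 * m + 1 = n + t := ⟨2 * m + 1 - n, by omega⟩
    have h1 : 2 * m + 1 - n = t := by omega
    rw [h1]
    have h2 : ω ^ (n * ((Fin.rev j : Fin (2 * m + 1)) : ℕ)) * ω ^ (n * ((j : ℕ) + 1)) = 1 := by
      rw [← pow_add, ← Nat.mul_add, Fin.val_rev]
      have : 2 * m + 1 - ((j : ℕ) + 1) + ((j : ℕ) + 1) = 2 * m + 1 := by omega
      rw [this, mul_comm, pow_mul, hω, one_pow]
    have h3 : (ω ^ t * ω ^ (t * (j : ℕ))) * ω ^ (n * ((j : ℕ) + 1)) = 1 := by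
      rw [← pow_add, ← pow_add]
      have : t + t * (j : ℕ) + n * ((j : ℕ) + 1) = (2 * m + 1) * ((j : ℕ) + 1) := by
        calc t + t * (j : ℕ) + n * ((j : ℕ) + 1) = (n + t) * ((j : ℕ) + 1) := by ring
          _ = _ := by rw [← ht]
      rw [this, pow_mul, hω, one_pow]
    have h4 : ω ^ (n * ((j : ℕ) + 1)) ≠ 0 := right_ne_zero_of_mul_eq_one h3
    exact mul_right_cancel₀ h4 (h2.trans h3.symm)
  rw [e]
  ring

theorem Lf_zero (m : ℕ) (ω : ℂ) (hω : ω ^ (2 * m + 1) = 1) : Lf m ω 0 = 0 := by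
  have h := Lf_refl m ω hω 0 (Nat.zero_le _)
  have h1 : Lf m ω (2 * m + 1 - 0) = Lf m ω 0 := by
    unfold Lf
    refine Finset.sum_congr rfl fun j _ => ?_
    rw [Nat.sub_zero, pow_mul, hω, one_pow, zero_mul, pow_zero]
  rw [h1, Nat.sub_zero, hω, C_1, one_mul] at h
  have h4 : (2 : MvPolynomial (Fin m) ℂ) * Lf m ω 0 = 0 := by linear_combination h
  rcases mul_eq_zero.mp h4 with h | h
  · exfalso
    have : (C (2 : ℂ) : MvPolynomial (Fin m) ℂ) = 0 := by
      rw [map_ofNat]; exact h
    rw [C_eq_zero] at this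
    norm_num at this
  · exact h

theorem Lf_mem_span (m : ℕ) (ω : ℂ) (hω : ω ^ (2 * m + 1) = 1) (n : ℕ) (hn : n < 2 * m + 1) :
    Lf m ω n ∈ Ideal.span (Set.range fun k : Fin m => Lf m ω ((k : ℕ) + 1)) := by
  rcases Nat.eq_zero_or_pos n with h0 | h0
  · rw [h0, Lf_zero m ω hω]; exact Ideal.zero_mem _
  · by_cases h1 : n ≤ m
    · refine Ideal.subset_span ⟨⟨n - 1, by omega⟩, ?_⟩
      show Lf m ω (n - 1 + 1) = Lf m ω n
      rw [Nat.sub_add_cancel h0]
    · rw [Lf_refl m ω hω n hn.le]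
      refine (Ideal.neg_mem_iff _).mpr (Ideal.mul_mem_left _ _ ?_)
      refine Ideal.subset_span ⟨⟨2 * m + 1 - n - 1, by omega⟩, ?_⟩
      show Lf m ω (2 * m + 1 - n - 1 + 1) = Lf m ω (2 * m + 1 - n)
      rw [Nat.sub_add_cancel (by omega)]

theorem four_inv (m : ℕ) (ω : ℂ) (hω : IsPrimitiveRoot ω (2 * m + 1)) (j : Fin (2 * m + 1)) :
    C ((2 * m + 1 : ℕ) : ℂ) * av m (fun i => (X i : MvPolynomial (Fin m) ℂ)) j =
      ∑ n : Fin (2 * m + 1), C (Gm (2 * m + 1) ω j n) * Lf m ω n := by
  have h := GF (2 * m + 1) ω (by omega) hω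
  have h1 : ∀ i, ∑ n : Fin (2 * m + 1), Gm (2 * m + 1) ω j n * Fm (2 * m + 1) ω n i =
      if j = i then ((2 * m + 1 : ℕ) : ℂ) else 0 := by
    intro i
    have := congrFun (congrFun h j) i
    rw [Matrix.mul_apply] at this
    rw [this, Matrix.smul_apply, Matrix.one_apply, smul_eq_mul, mul_ite, mul_one, mul_zero]
  have h2 : ∑ n : Fin (2 * m + 1), C (Gm (2 * m + 1) ω j n) * Lf m ω n =
      ∑ i : Fin (2 * m + 1), C (∑ n : Fin (2 * m + 1), Gm (2 * m + 1) ω j n *
        Fm (2 * m + 1) ω n i) * av m (fun i => (X i : MvPolynomial (Fin m) ℂ)) i := by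
    simp only [map_sum, Finset.sum_mul, Lf, Finset.mul_sum]
    rw [Finset.sum_comm]
    refine Finset.sum_congr rfl fun i _ => Finset.sum_congr rfl fun n _ => ?_
    rw [C_mul, mul_assoc]
    rfl
  rw [h2]
  rw [Finset.sum_eq_single j]
  · rw [h1, if_pos rfl]
  · intro i _ hi
    rw [h1, if_neg hi.symm, C_0, zero_mul]
  · intro h; exact absurd (Finset.mem_univ j) h

theorem mm_eq_span (m : ℕ) (ω : ℂ) (hω : IsPrimitiveRoot ω (2 * m + 1)) :
    idealOfVars (Fin m) ℂ = Ideal.span (Set.range fun k : Fin m => Lf m ω ((k : ℕ) + 1)) := by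
  apply le_antisymm
  · rw [idealOfVars, Ideal.span_le]
    rintro _ ⟨k, rfl⟩
    show X k ∈ _
    have h := four_inv m ω hω ⟨k, by have := k.isLt; omega⟩
    have h1 : av m (fun i => (X i : MvPolynomial (Fin m) ℂ)) ⟨k, by have := k.isLt; omega⟩ =
        X k := by
      unfold av
      rw [dif_pos k.isLt]
    rw [h1] at h
    have h2 : (X k : MvPolynomial (Fin m) ℂ) = C (((2 * m + 1 : ℕ) : ℂ)⁻¹) *
        (C ((2 * m + 1 : ℕ) : ℂ) * X k) := by
      rw [← mul_assoc, ← C_mul, inv_mul_cancel₀, C_1, one_mul]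
      exact_mod_cast (by omega : (2 * m + 1 : ℕ) ≠ 0)
    rw [h2, h]
    refine Ideal.mul_mem_left _ _ (Ideal.sum_mem _ fun n _ => Ideal.mul_mem_left _ _ ?_)
    exact Lf_mem_span m ω hω.pow_eq_one n n.isLt
  · rw [Ideal.span_le]
    rintro _ ⟨k, rfl⟩
    exact Ideal.sum_mem _ fun j _ => Ideal.mul_mem_left _ _ (av_mem m j)

theorem pow_step (m : ℕ) (hm : 1 ≤ m) (ω : ℂ) (hω : IsPrimitiveRoot ω (2 * m + 1)) :
    idealOfVars (Fin m) ℂ ^ (m + 1) ≤ idl m ⊔ idealOfVars (Fin m) ℂ ^ (m + 2) := by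
  set ψ : MvPolynomial (Fin m) ℂ →+* MvPolynomial (Fin m) ℂ :=
    (aeval (fun k : Fin m => Lf m ω ((k : ℕ) + 1)) :
      MvPolynomial (Fin m) ℂ →ₐ[ℂ] MvPolynomial (Fin m) ℂ).toRingHom with hψ
  have hψX : ∀ k, ψ (X k) = Lf m ω ((k : ℕ) + 1) := fun k => aeval_X _ k
  have hmap : (idealOfVars (Fin m) ℂ).map ψ = idealOfVars (Fin m) ℂ := by
    conv_rhs => rw [mm_eq_span m ω hω]
    rw [idealOfVars, Ideal.map_span, ← Set.range_comp]
    exact congrArg (fun f => Ideal.span (Set.range f)) (funext hψX)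
  have hpow : ∀ n, idealOfVars (Fin m) ℂ ^ n = (idealOfVars (Fin m) ℂ ^ n).map ψ := by
    intro n
    rw [Ideal.map_pow, hmap]
  rw [hpow (m + 1), pow_idealOfVars_eq_span, Ideal.map_span, Ideal.span_le]
  rintro _ ⟨_, ⟨x, hx, rfl⟩, rfl⟩
  simp only [Set.mem_preimage, Set.mem_singleton_iff] at hx
  obtain ⟨k, hk⟩ : ∃ k, 2 ≤ x k := by
    by_contra hcon
    push Not at hcon
    have h1 : Finsupp.degree x ≤ m := by
      rw [Finsupp.degree_eq_sum]
      calc ∑ i, x i ≤ ∑ i : Fin m, 1 := Finset.sum_le_sum fun i _ => by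
            have := hcon i; omega
        _ = m := by simp
    omega
  have hx2 : x = Finsupp.single k 2 + (x - Finsupp.single k 2) := by
    rw [add_tsub_cancel_of_le]
    rw [Finsupp.single_le_iff]
    exact hk
  have hdeg : Finsupp.degree (x - Finsupp.single k 2) = m - 1 := by
    have := congrArg Finsupp.degree hx2
    rw [map_add, Finsupp.degree_single] at this
    omega
  have hmon : (monomial x 1 : MvPolynomial (Fin m) ℂ) =
      X k ^ 2 * monomial (x - Finsupp.single k 2) 1 := by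
    rw [X_pow_eq_monomial, monomial_mul, one_mul, ← hx2]
  show ψ (monomial x 1) ∈ _
  rw [hmon, map_mul, map_pow, hψX]
  have hmem : ψ (monomial (x - Finsupp.single k 2) 1) ∈ idealOfVars (Fin m) ℂ ^ (m - 1) := by
    rw [hpow]
    apply Ideal.mem_map_of_mem
    rw [monomial_mem_pow_idealOfVars_iff _ _ one_ne_zero, hdeg]
  obtain ⟨a, ha, b, hb, hab⟩ := Submodule.mem_sup.mp
    (sq_mem m hm ω hω ((k : ℕ) + 1) (by omega) (by have := k.isLt; omega))
  rw [← hab, add_mul]
  refine Ideal.add_mem _ (Ideal.mem_sup_left (Ideal.mul_mem_right _ _ ha)) (Ideal.mem_sup_right ?_)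
  have : m + 2 = 3 + (m - 1) := by omega
  rw [this, pow_add]
  exact Ideal.mul_mem_mul hb hmem

theorem pow_all (m : ℕ) (hm : 1 ≤ m) (ω : ℂ) (hω : IsPrimitiveRoot ω (2 * m + 1)) (k : ℕ) :
    idealOfVars (Fin m) ℂ ^ (m + 1) ≤ idl m ⊔ idealOfVars (Fin m) ℂ ^ (m + 1 + k) := by
  induction k with
  | zero => exact le_sup_right
  | succ k ih =>
    refine ih.trans (sup_le le_sup_left ?_)
    rw [pow_add]
    calc idealOfVars (Fin m) ℂ ^ (m + 1) * idealOfVars (Fin m) ℂ ^ k
        ≤ (idl m ⊔ idealOfVars (Fin m) ℂ ^ (m + 2)) * idealOfVars (Fin m) ℂ ^ k :=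
          Ideal.mul_mono_left (pow_step m hm ω hω)
      _ = idl m * idealOfVars (Fin m) ℂ ^ k ⊔
          idealOfVars (Fin m) ℂ ^ (m + 2) * idealOfVars (Fin m) ℂ ^ k := Ideal.sup_mul _ _ _
      _ ≤ idl m ⊔ idealOfVars (Fin m) ℂ ^ (m + 1 + (k + 1)) := by
          refine sup_le_sup Ideal.mul_le_left ?_
          rw [← pow_add]
          have : m + 2 + k = m + 1 + (k + 1) := by omega
          rw [this]

theorem exists_zero (m : ℕ) (hm : 2 ≤ m) : ∃ a : Fin m → ℂ, a ≠ 0 ∧
    ∀ n, eval a ((zp m).coeff n) = 0 := by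
  by_contra hcon
  push Not at hcon
  obtain ⟨ω, hω⟩ : ∃ ω : ℂ, IsPrimitiveRoot ω (2 * m + 1) :=
    ⟨_, Complex.isPrimitiveRoot_exp (2 * m + 1) (by omega)⟩
  have hrad : idealOfVars (Fin m) ℂ ≤ (idl m).radical := by
    rw [← vanishingIdeal_zeroLocus_eq_radical (K := ℂ), idealOfVars, Ideal.span_le]
    rintro _ ⟨k, rfl⟩
    show X k ∈ vanishingIdeal ℂ (zeroLocus ℂ (idl m))
    rw [mem_vanishingIdeal_iff]
    intro x hx
    rw [aeval_X]
    by_contra hne
    obtain ⟨n, hn⟩ := hcon x (fun h => hne (by rw [h]; rfl))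
    apply hn
    have := hx ((zp m).coeff n) (Ideal.subset_span ⟨n, rfl⟩)
    exact this
  obtain ⟨N, hN⟩ := Ideal.exists_pow_le_of_le_radical_of_fg hrad (idealOfVars_fg (Fin m) ℂ)
  have h1 : idealOfVars (Fin m) ℂ ^ (m + 1) ≤ idl m := by
    refine (pow_all m (by omega) ω hω N).trans (sup_le le_rfl ?_)
    rw [pow_add]
    exact Ideal.mul_le_right.trans hN
  refine big_not_mem m (by omega)
    (Finsupp.equivFunOnFinite.symm fun k : Fin m => 2 * (k : ℕ) + 1) (fun k => ?_) (h1 ?_)
  · simp only [Finsupp.equivFunOnFinite_symm_apply_apply]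
    omega
  · rw [monomial_mem_pow_idealOfVars_iff _ _ one_ne_zero, Finsupp.degree_eq_sum]
    simp only [Finsupp.equivFunOnFinite_symm_apply_apply]
    have h2 : ∑ k : Fin m, (2 * (k : ℕ) + 1) = m ^ 2 := by
      rw [Fin.sum_univ_eq_sum_range (fun k => 2 * k + 1) m]
      clear hm h1 hN hrad hcon hω
      induction m with
      | zero => simp
      | succ m ih => rw [Finset.sum_range_succ, ih]; ring
    rw [h2]
    nlinarith

end Nul


/-! ### GQ6 -/

section OddCase

theorem cp_of_dd (q : ℕ) (z w : ℂ) (V V' : Fin q → ℂ)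
    (h : dd q (Polynomial.C z) (Polynomial.C w) (fun j => Polynomial.C (V j)) Polynomial.X =
      dd q (Polynomial.C z) (Polynomial.C w) (fun j => Polynomial.C (V' j)) Polynomial.X) :
    (floq q z w V).charpoly = (floq q z w V').charpoly := by
  rw [dd_charpoly, dd_charpoly] at h
  exact mul_left_cancel₀ (pow_ne_zero _ (neg_ne_zero.mpr one_ne_zero)) h

theorem odd_case (m : ℕ) (hm : 2 ≤ m) : ∃ V : Fin (2 * m + 1) → ℂ, V ≠ 0 ∧
    (∀ j, V (Fin.rev j) = - V j) ∧ ∀ z w : ℂ, z * w = 1 →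
      (floq (2 * m + 1) z w V).charpoly = (floq (2 * m + 1) z w 0).charpoly := by
  obtain ⟨a, ha0, ha⟩ := exists_zero m hm
  refine ⟨av m a, ?_, av_rev m a, ?_⟩
  · intro h
    apply ha0
    funext k
    have := congrFun h ⟨k, by have := k.isLt; omega⟩
    unfold av at this
    rw [dif_pos k.isLt] at this
    exact this
  · intro z w hzw
    have h1 := zp_hom m (Polynomial.mapRingHom (MvPolynomial.eval a))
    have h2 : Polynomial.mapRingHom (MvPolynomial.eval a) (zp m) = 0 := by
      ext n : 1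
      rw [Polynomial.coe_mapRingHom, Polynomial.coeff_map, ha n, Polynomial.coeff_zero]
    rw [h2] at h1
    simp only [Polynomial.coe_mapRingHom, Polynomial.map_C, Polynomial.map_X,
      MvPolynomial.eval_X] at h1
    have h3 := zind (2 * m) (by omega) (1 : Polynomial ℂ) 1 (Polynomial.C z) (Polynomial.C w)
      (one_mul 1) (by rw [← Polynomial.C_mul, hzw, Polynomial.C_1])
      (av m (fun i => Polynomial.C (a i))) 0 Polynomial.X Polynomial.X
    rw [h3] at h1
    apply cp_of_dd
    have e1 : (fun j => Polynomial.C (av m a j)) = av m (fun i => Polynomial.C (a i)) := by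
      funext j
      exact av_map Polynomial.C m a j
    have e2 : (fun j => Polynomial.C ((0 : Fin (2 * m + 1) → ℂ) j)) = 0 := by
      funext j
      simp
    rw [e1, e2]
    exact (sub_eq_zero.mp h1.symm)

end OddCase

section Double

variable {R : Type*} [CommRing R]

theorem det_block {n : Type*} [Fintype n] [DecidableEq n] (A K : Matrix n n R) (s s' : R)
    (h : s * s' = 1) :
    (Matrix.fromBlocks A (s' • K) (s • K) A).det = (A + K).det * (A - K).det := by
  have e : Matrix.fromBlocks (1 : Matrix n n R) (s' • 1) 0 1 *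
      Matrix.fromBlocks A (s' • K) (s • K) A * Matrix.fromBlocks 1 (-(s' • 1)) 0 1 =
      Matrix.fromBlocks (A + K) 0 (s • K) (A - K) := by
    rw [Matrix.fromBlocks_multiply, Matrix.fromBlocks_multiply]
    congr 1
    · simp only [Matrix.one_mul, Matrix.mul_one, Matrix.smul_mul, Matrix.mul_zero, add_zero,
        smul_smul, mul_comm s' s, h, one_smul]
    · simp only [Matrix.one_mul, Matrix.mul_one, Matrix.smul_mul, Matrix.mul_smul, add_zero,
        Matrix.mul_neg, smul_smul, mul_comm s' s, h, one_smul, smul_add, add_mul]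
      abel
    · simp only [Matrix.zero_mul, Matrix.one_mul, Matrix.mul_one, Matrix.mul_zero, add_zero,
        zero_add]
    · simp only [Matrix.zero_mul, Matrix.one_mul, Matrix.mul_one, Matrix.mul_zero, smul_zero,
        zero_add, Matrix.mul_neg, Matrix.mul_smul, smul_smul, mul_comm s' s, h, one_smul]
      abel
  have hd := congrArg Matrix.det e
  rw [Matrix.det_mul, Matrix.det_mul, Matrix.det_fromBlocks_zero₂₁, Matrix.det_fromBlocks_zero₂₁,
    Matrix.det_fromBlocks_zero₁₂] at hd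
  simpa using hd

/-- corner matrix -/
def ck (d : ℕ) (s s' : R) : Matrix (Fin d) (Fin d) R := Matrix.of fun i j =>
  if (i : ℕ) = 0 ∧ (j : ℕ) + 1 = d then s' else if (j : ℕ) = 0 ∧ (i : ℕ) + 1 = d then s else 0

theorem floq_ck (d : ℕ) (hd : 3 ≤ d) (s s' : R) (W : Fin d → R) (x : R) :
    floq d s s' W - x • (1 : Matrix (Fin d) (Fin d) R) =
      (floq d 0 0 W - x • (1 : Matrix (Fin d) (Fin d) R)) + ck d s s' := by
  ext i j
  have hi := i.isLt
  have hj := j.isLt
  simp only [floq, ck, Matrix.sub_apply, Matrix.add_apply, Matrix.smul_apply, Matrix.of_apply,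
    Matrix.one_apply, Fin.ext_iff]
  split_ifs <;> first | omega | ring

theorem double (d : ℕ) (hd : 3 ≤ d) (s s' : R) (h : s * s' = 1) (W : Fin d → R) (x : R) :
    dd (d + d) (s * s) (s' * s') (Fin.append W W) x = dd d s s' W x * dd d (-s) (-s') W x := by
  have e1 : (floq (d + d) (s * s) (s' * s') (Fin.append W W) -
      x • (1 : Matrix (Fin (d + d)) (Fin (d + d)) R)).submatrix finSumFinEquiv finSumFinEquiv =
      Matrix.fromBlocks (floq d 0 0 W - x • (1 : Matrix (Fin d) (Fin d) R)) (s' • ck d s s')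
        (s • ck d s s') (floq d 0 0 W - x • (1 : Matrix (Fin d) (Fin d) R)) := by
    ext i j
    rcases i with i | i <;> rcases j with j | j
    · have hi := i.isLt
      have hj := j.isLt
      simp only [Matrix.submatrix_apply, finSumFinEquiv_apply_left, Matrix.fromBlocks_apply₁₁,
        floq, Matrix.sub_apply, Matrix.smul_apply, Matrix.of_apply, Matrix.one_apply, Fin.ext_iff,
        Fin.val_castAdd, Fin.append_left]
      split_ifs <;> first | omega | ring
    · have hi := i.isLt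
      have hj := j.isLt
      simp only [Matrix.submatrix_apply, finSumFinEquiv_apply_left, finSumFinEquiv_apply_right,
        Matrix.fromBlocks_apply₁₂, ck,
        floq, Matrix.sub_apply, Matrix.smul_apply, Matrix.of_apply, Matrix.one_apply, Fin.ext_iff,
        Fin.val_castAdd, Fin.val_natAdd, Fin.append_left, smul_eq_mul, mul_ite, mul_zero,
        mul_comm s' s, h]
      split_ifs <;> first | omega | ring
    · have hi := i.isLt
      have hj := j.isLt
      simp only [Matrix.submatrix_apply, finSumFinEquiv_apply_left, finSumFinEquiv_apply_right,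
        Matrix.fromBlocks_apply₂₁, ck,
        floq, Matrix.sub_apply, Matrix.smul_apply, Matrix.of_apply, Matrix.one_apply, Fin.ext_iff,
        Fin.val_castAdd, Fin.val_natAdd, Fin.append_right, smul_eq_mul, mul_ite, mul_zero, h]
      split_ifs <;> first | omega | ring
    · have hi := i.isLt
      have hj := j.isLt
      simp only [Matrix.submatrix_apply, finSumFinEquiv_apply_right, Matrix.fromBlocks_apply₂₂,
        floq, Matrix.sub_apply, Matrix.smul_apply, Matrix.of_apply, Matrix.one_apply, Fin.ext_iff,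
        Fin.val_natAdd, Fin.append_right]
      split_ifs <;> first | omega | ring
  have e2 : dd (d + d) (s * s) (s' * s') (Fin.append W W) x =
      ((floq (d + d) (s * s) (s' * s') (Fin.append W W) -
      x • (1 : Matrix (Fin (d + d)) (Fin (d + d)) R)).submatrix finSumFinEquiv
        finSumFinEquiv).det := by
    rw [Matrix.det_submatrix_equiv_self]
    rfl
  have e3 : (ck d (-s) (-s') : Matrix (Fin d) (Fin d) R) = - ck d s s' := by
    ext i j
    simp only [ck, Matrix.of_apply, Matrix.neg_apply]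
    split_ifs <;> ring
  rw [e2, e1, det_block _ _ s s' h]
  unfold dd
  rw [floq_ck d hd s s', floq_ck d hd (-s) (-s'), e3, sub_eq_add_neg _ (ck d s s')]

end Double


/-! ### q7 -/

section Six

variable {R : Type*} [CommRing R]

theorem six_mat (z w : R) (a b c x : R) :
    floq 6 z w ![a, b, c, -c, -b, -a] - x • (1 : Matrix (Fin 6) (Fin 6) R) =
      !![a - x, 1, 0, 0, 0, w;
         1, b - x, 1, 0, 0, 0;
         0, 1, c - x, 1, 0, 0;
         0, 0, 1, -c - x, 1, 0;
         0, 0, 0, 1, -b - x, 1;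
         z, 0, 0, 0, 1, -a - x] := by
  ext i j
  fin_cases i <;> fin_cases j <;>
    simp [floq]

theorem six_det (z w : R) (a b c x : R) (h : z * w = 1) :
    dd 6 z w ![a, b, c, -c, -b, -a] x =
      x ^ 6 - (a ^ 2 + b ^ 2 + c ^ 2 + 6) * x ^ 4 +
      (a ^ 2 * b ^ 2 + a ^ 2 * c ^ 2 + b ^ 2 * c ^ 2 + 2 * (a ^ 2 + b ^ 2 + c ^ 2) -
        (2 * a * b + 2 * b * c - a ^ 2 - c ^ 2) + 9) * x ^ 2 +
      (-(a ^ 2 * b ^ 2 * c ^ 2) + 2 * a * b * c * (a + c) - b ^ 2 * (a ^ 2 + c ^ 2) +
        (2 * a * b + 2 * b * c - a ^ 2 - c ^ 2) - 2 * a * c - b ^ 2) - 2 - (z + w) := by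
  unfold dd
  rw [six_mat]
  simp [Matrix.det_succ_row_zero, Fin.sum_univ_succ, Fin.succAbove]
  linear_combination (-(b ^ 2 * c ^ 2) - (1 - 3 * x ^ 2 - x ^ 2 * b ^ 2 - x ^ 2 * c ^ 2 + x ^ 4 -
    2 * b * c + b ^ 2)) * h

theorem six_case : ∃ V : Fin 6 → ℂ, V ≠ 0 ∧ (∀ j, V (Fin.rev j) = - V j) ∧
    ∀ z w : ℂ, z * w = 1 → (floq 6 z w V).charpoly = (floq 6 z w 0).charpoly := by
  -- the polynomial in `t`
  set G : Polynomial ℂ := 16 * (2 * Polynomial.X + 1) ^ 2 -
    4 * Polynomial.X * (2 * Polynomial.X + 1) * (Polynomial.X ^ 2 - 1) *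
      ((Polynomial.X ^ 2 - 1) * (Polynomial.X ^ 2 + 3)) +
    (Polynomial.X - 1) ^ 2 * ((Polynomial.X ^ 2 - 1) * (Polynomial.X ^ 2 + 3)) ^ 2 with hG
  have hev : ∀ t : ℂ, G.eval t = 16 * (2 * t + 1) ^ 2 -
    4 * t * (2 * t + 1) * (t ^ 2 - 1) * ((t ^ 2 - 1) * (t ^ 2 + 3)) +
    (t - 1) ^ 2 * ((t ^ 2 - 1) * (t ^ 2 + 3)) ^ 2 := by
    intro t
    rw [hG]
    simp
  have hdeg : G.degree ≠ 0 := by
    intro h
    have h1 := hev 1
    have h2 := hev (-1)
    rw [Polynomial.eq_C_of_degree_eq_zero h, Polynomial.eval_C] at h1 h2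
    rw [h1] at h2
    norm_num at h2
  obtain ⟨t, ht⟩ := IsAlgClosed.exists_root G hdeg
  rw [Polynomial.IsRoot.def, hev] at ht
  have hu : (t ^ 2 - 1) * (t ^ 2 + 3) ≠ 0 := by
    intro h
    rw [h] at ht
    have h1 : (2 * t + 1) ^ 2 = 0 := by linear_combination ht / 16
    have h2 : t = -1 / 2 := by
      have := pow_eq_zero_iff (two_ne_zero) |>.mp h1
      linear_combination this / 2
    rw [h2] at h
    norm_num at h
  have h21 : 2 * t + 1 ≠ 0 := by
    intro h
    have h2 : t = -1 / 2 := by linear_combination h / 2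
    rw [h2] at ht
    norm_num at ht
  set u := (t ^ 2 - 1) * (t ^ 2 + 3) with hu'
  obtain ⟨b, hb⟩ := IsAlgClosed.exists_pow_nat_eq (4 * (2 * t + 1) / u) (n := 2) (by norm_num)
  have hb1 : b ^ 2 * u = 4 * (2 * t + 1) := by
    rw [hb, div_mul_cancel₀ _ hu]
  have hb0 : b ≠ 0 := by
    rintro rfl
    apply h21
    linear_combination (-1 / 4 : ℂ) * hb1
  obtain ⟨r, hr⟩ := IsAlgClosed.exists_pow_nat_eq (- (t * b) ^ 2 - 2 * b ^ 2) (n := 2)
    (by norm_num)
  have hK : b ^ 4 - t * (t ^ 2 - 1) * b ^ 2 + (t - 1) ^ 2 = 0 := by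
    have h1 : u ^ 2 * (b ^ 4 - t * (t ^ 2 - 1) * b ^ 2 + (t - 1) ^ 2) = 0 := by
      linear_combination ht + (b ^ 2 * u + 4 * (2 * t + 1) - t * (t ^ 2 - 1) * u) * hb1
    rcases mul_eq_zero.mp h1 with h | h
    · exact absurd (pow_eq_zero_iff (two_ne_zero) |>.mp h) hu
    · exact h
  obtain ⟨a, c, hac, hac'⟩ : ∃ a c : ℂ, a + c = t * b ∧ a * c = ((t * b) ^ 2 + b ^ 2) / 2 :=
    ⟨(t * b + r) / 2, (t * b - r) / 2, by ring, by linear_combination (-1 / 4 : ℂ) * hr⟩
  have E1 : a ^ 2 + b ^ 2 + c ^ 2 = 0 := by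
    linear_combination (a + c + t * b) * hac - 2 * hac'
  have E2 : a ^ 2 * b ^ 2 + a ^ 2 * c ^ 2 + b ^ 2 * c ^ 2 -
      (2 * a * b + 2 * b * c - a ^ 2 - c ^ 2) = 0 := by
    have h1 : a ^ 2 * b ^ 2 + a ^ 2 * c ^ 2 + b ^ 2 * c ^ 2 -
      (2 * a * b + 2 * b * c - a ^ 2 - c ^ 2) =
        b ^ 2 * (a ^ 2 + b ^ 2 + c ^ 2) - b ^ 4 + (a * c) ^ 2 - 2 * b * (a + c) +
          (a ^ 2 + b ^ 2 + c ^ 2) - b ^ 2 := by ring
    rw [h1, E1, hac, hac']
    rw [hu'] at hb1
    linear_combination (b ^ 2 / 4) * hb1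
  have E3 : (-(a ^ 2 * b ^ 2 * c ^ 2) + 2 * a * b * c * (a + c) - b ^ 2 * (a ^ 2 + c ^ 2) +
        (2 * a * b + 2 * b * c - a ^ 2 - c ^ 2) - 2 * a * c - b ^ 2) = 0 := by
    have h1 : (-(a ^ 2 * b ^ 2 * c ^ 2) + 2 * a * b * c * (a + c) - b ^ 2 * (a ^ 2 + c ^ 2) +
        (2 * a * b + 2 * b * c - a ^ 2 - c ^ 2) - 2 * a * c - b ^ 2) =
        - ((a * c) ^ 2 * b ^ 2) + 2 * b * (a * c) * (a + c) - b ^ 2 * (a ^ 2 + b ^ 2 + c ^ 2) +
          b ^ 4 + 2 * b * (a + c) - (a ^ 2 + b ^ 2 + c ^ 2) - 2 * (a * c) := by ring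
    rw [h1, E1, hac, hac']
    rw [hu'] at hb1
    linear_combination (-(b ^ 4) / 4) * hb1 - b ^ 2 * hK
  refine ⟨![a, b, c, -c, -b, -a], ?_, ?_, ?_⟩
  · intro h
    exact hb0 (congrFun h 1)
  · intro j
    fin_cases j <;> simp [Fin.rev]
  · intro z w hzw
    apply cp_of_dd
    have hzw' : (Polynomial.C z : Polynomial ℂ) * Polynomial.C w = 1 := by
      rw [← Polynomial.C_mul, hzw, Polynomial.C_1]
    have e1 : (fun j => Polynomial.C ((![a, b, c, -c, -b, -a] : Fin 6 → ℂ) j)) =
        ![Polynomial.C a, Polynomial.C b, Polynomial.C c, -Polynomial.C c, -Polynomial.C b,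
          -Polynomial.C a] := by
      funext j
      fin_cases j <;> simp
    have e2 : (fun j => Polynomial.C ((0 : Fin 6 → ℂ) j)) =
        ![(0 : Polynomial ℂ), 0, 0, -0, -0, -0] := by
      funext j
      fin_cases j <;> simp
    rw [e1, e2, six_det _ _ _ _ _ _ hzw', six_det _ _ _ _ _ _ hzw']
    have F1 := congrArg (Polynomial.C : ℂ →+* Polynomial ℂ) E1
    have F2 := congrArg (Polynomial.C : ℂ →+* Polynomial ℂ) E2
    have F3 := congrArg (Polynomial.C : ℂ →+* Polynomial ℂ) E3
    simp only [map_add, map_mul, map_pow, map_sub, map_neg, map_zero, map_ofNat] at F1 F2 F3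
    linear_combination (-(Polynomial.X ^ 4) + 2 * Polynomial.X ^ 2) * F1 + Polynomial.X ^ 2 * F2 + F3

end Six

theorem even_case (m : ℕ) (hm : 2 ≤ m) : ∃ V : Fin ((2 * m + 1) + (2 * m + 1)) → ℂ, V ≠ 0 ∧
    (∀ j, V (Fin.rev j) = - V j) ∧ ∀ z w : ℂ, z * w = 1 →
      (floq ((2 * m + 1) + (2 * m + 1)) z w V).charpoly =
        (floq ((2 * m + 1) + (2 * m + 1)) z w 0).charpoly := by
  obtain ⟨W, hW0, hW1, hW2⟩ := odd_case m hm
  refine ⟨Fin.append W W, ?_, ?_, ?_⟩
  · intro h
    apply hW0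
    funext k
    have := congrFun h (Fin.castAdd _ k)
    rw [Fin.append_left] at this
    exact this
  · intro j
    refine Fin.addCases (fun i => ?_) (fun i => ?_) j
    · have e : Fin.rev (Fin.castAdd (2 * m + 1) i) = Fin.natAdd (2 * m + 1) (Fin.rev i) := by
        apply Fin.ext
        have := i.isLt
        simp only [Fin.val_rev, Fin.val_castAdd, Fin.val_natAdd]
        omega
      rw [e, Fin.append_left, Fin.append_right, hW1]
    · have e : Fin.rev (Fin.natAdd (2 * m + 1) i) = Fin.castAdd (2 * m + 1) (Fin.rev i) := by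
        apply Fin.ext
        have := i.isLt
        simp only [Fin.val_rev, Fin.val_castAdd, Fin.val_natAdd]
        omega
      rw [e, Fin.append_left, Fin.append_right, hW1]
  · intro z w hzw
    obtain ⟨s, hs⟩ := IsAlgClosed.exists_pow_nat_eq z (n := 2) (by norm_num)
    have hs0 : s ≠ 0 := by
      rintro rfl
      rw [← hs] at hzw
      norm_num at hzw
    have hss : s * s⁻¹ = 1 := mul_inv_cancel₀ hs0
    have hz : z = s * s := by rw [← hs]; ring
    have hw : w = s⁻¹ * s⁻¹ := by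
      have h1 : w * (s * s⁻¹) * (s * s⁻¹) = (z * w) * (s⁻¹ * s⁻¹) := by rw [hz]; ring
      rw [hss, hzw] at h1
      linear_combination h1
    apply cp_of_dd
    have hss' : (Polynomial.C s : Polynomial ℂ) * Polynomial.C s⁻¹ = 1 := by
      rw [← Polynomial.C_mul, hss, Polynomial.C_1]
    have key : ∀ U : Fin (2 * m + 1) → ℂ,
        dd ((2 * m + 1) + (2 * m + 1)) (Polynomial.C z) (Polynomial.C w)
          (fun j => Polynomial.C (Fin.append U U j)) Polynomial.X =
        ((-1) ^ (2 * m + 1) * (floq (2 * m + 1) s s⁻¹ U).charpoly) *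
          ((-1) ^ (2 * m + 1) * (floq (2 * m + 1) (-s) (-s⁻¹) U).charpoly) := by
      intro U
      rw [← dd_charpoly, ← dd_charpoly, hz, hw, Polynomial.C_mul, Polynomial.C_mul,
        Polynomial.C_neg, Polynomial.C_neg,
        ← double (2 * m + 1) (by omega) (Polynomial.C s) (Polynomial.C s⁻¹) hss']
      congr 1
      funext j
      refine Fin.addCases (fun i => ?_) (fun i => ?_) j
      · rw [Fin.append_left, Fin.append_left]
      · rw [Fin.append_right, Fin.append_right]
    have e0 : (0 : Fin ((2 * m + 1) + (2 * m + 1)) → ℂ) =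
        Fin.append (0 : Fin (2 * m + 1) → ℂ) (0 : Fin (2 * m + 1) → ℂ) := by
      funext j
      refine Fin.addCases (fun i => ?_) (fun i => ?_) j
      · rw [Fin.append_left]; rfl
      · rw [Fin.append_right]; rfl
    rw [e0, key, key, hW2 s s⁻¹ hss, hW2 (-s) (-s⁻¹) (by rw [neg_mul_neg, hss])]

/-- The Floquet matrix `L_V(z)` of the potential `V = (v_1, …, v_q)`: diagonal `V`, entries `1` on
the sub- and superdiagonal, `z⁻¹` in position `(1, q)` and `z` in position `(q, 1)`. -/
noncomputable def floquet (q : ℕ) (V : Fin q → ℂ) (z : ℂ) : Matrix (Fin q) (Fin q) ℂ :=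
  Matrix.of fun i j =>
    if i = j then V i
    else if (i : ℕ) + 1 = j ∨ (j : ℕ) + 1 = i then 1
    else if (i : ℕ) = 0 ∧ (j : ℕ) + 1 = q then z⁻¹
    else if (j : ℕ) = 0 ∧ (i : ℕ) + 1 = q then z
    else 0

theorem floquet_eq (q : ℕ) (V : Fin q → ℂ) (z : ℂ) : floquet q V z = floq q z z⁻¹ V := rfl

theorem result : ∀ q : ℕ, 3 < q → ¬ 4 ∣ q → ∃ V : Fin q → ℂ, V ≠ 0 ∧
    (∀ j, V (Fin.rev j) = - V j) ∧
    ∀ z : ℂ, z ≠ 0 → (floquet q V z).charpoly = (floquet q 0 z).charpoly := by
  intro q hq h4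
  suffices h : ∃ V : Fin q → ℂ, V ≠ 0 ∧ (∀ j, V (Fin.rev j) = - V j) ∧
      ∀ z w : ℂ, z * w = 1 → (floq q z w V).charpoly = (floq q z w 0).charpoly by
    obtain ⟨V, h1, h2, h3⟩ := h
    refine ⟨V, h1, h2, fun z hz => ?_⟩
    rw [floquet_eq, floquet_eq]
    exact h3 z z⁻¹ (mul_inv_cancel₀ hz)
  rcases Nat.even_or_odd q with he | ho
  · obtain ⟨d, rfl⟩ := he
    have hd : ¬ Even d := by
      rintro ⟨e, rfl⟩
      exact h4 ⟨e, by ring⟩
    rw [Nat.not_even_iff_odd] at hd
    obtain ⟨m, rfl⟩ := hd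
    by_cases hm : 2 ≤ m
    · exact even_case m hm
    · have : m = 1 := by omega
      subst this
      exact six_case
  · obtain ⟨m, rfl⟩ := ho
    exact odd_case m (by omega)

end Pool.Agent.Results.MP_17669a_mp.AntisymmetricFloquet
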